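import Mathlib

/-!
# Approximation of a Borel function of finitely many random variables
-/

set_option autoImplicit false

open Set Filter Topology MeasureTheory
open scoped NNReal ENNReal

noncomputable section

namespace Pool.Agent.Helper34.QD

theorem apx {X : Type} [MeasurableSpace X] (P : Measure X) {m : ℕ}
    (L : X → Fin m → ℝ) (hL : Measurable L) (χ : X → ℝ) (hχ : Integrable χ P)
    (g : (Fin m → ℝ) → ℝ) (hg : Measurable g) (hg1 : ∀ y, |g y| ≤ 1) (ε : ℝ) (hε : 0 < ε) :
    ∃ g' : (Fin m → ℝ) → ℝ, ContDiff ℝ 1 g' ∧ HasCompactSupport g' ∧ (∀ y, |g' y| ≤ 1) ∧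
      ∫ x, |χ x * (g (L x) - g' (L x))| ∂P ≤ ε := by
  set ν : Measure (Fin m → ℝ) := (P.withDensity fun x => ‖χ x‖ₑ).map L with hν
  have : IsFiniteMeasure (P.withDensity fun x => ‖χ x‖ₑ) :=
    isFiniteMeasure_withDensity hχ.2.ne
  have : IsFiniteMeasure ν := by
    rw [hν]
    infer_instance
  have hm : Measurable fun y => Real.arcsin (g y) := Real.continuous_arcsin.measurable.comp hg
  have hM : MemLp (fun y => Real.arcsin (g y)) 1 ν := by
    refine MemLp.of_bound hm.aestronglyMeasurable (Real.pi / 2) (Eventually.of_forall fun y => ?_)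
    rw [Real.norm_eq_abs, abs_le]
    exact Real.arcsin_mem_Icc _
  obtain ⟨h, h1, h2, h3⟩ := hM.exist_eLpNorm_sub_le ENNReal.one_ne_top le_rfl hε
  have hh : Measurable h := h2.continuous.measurable
  refine ⟨fun y => Real.sin (h y), ?_, ?_, fun y => Real.abs_sin_le_one _, ?_⟩
  · exact Real.contDiff_sin.comp (h2.of_le (by exact_mod_cast le_top))
  · exact h1.comp_left Real.sin_zero
  · have h4 : ∫⁻ x, ‖χ x * (g (L x) - Real.sin (h (L x)))‖ₑ ∂P ≤ ENNReal.ofReal ε := by
      calc ∫⁻ x, ‖χ x * (g (L x) - Real.sin (h (L x)))‖ₑ ∂P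
          ≤ ∫⁻ x, ‖χ x‖ₑ * ‖Real.arcsin (g (L x)) - h (L x)‖ₑ ∂P := by
            refine lintegral_mono fun x => ?_
            rw [enorm_mul]
            refine mul_le_mul_right ?_ _
            rw [Real.enorm_eq_ofReal_abs, Real.enorm_eq_ofReal_abs]
            apply ENNReal.ofReal_le_ofReal
            have h5 := Real.abs_sin_sub_sin_le (Real.arcsin (g (L x))) (h (L x))
            have h6 := abs_le.mp (hg1 (L x))
            rwa [Real.sin_arcsin h6.1 h6.2] at h5
        _ = ∫⁻ x, ‖Real.arcsin (g (L x)) - h (L x)‖ₑ ∂(P.withDensity fun x => ‖χ x‖ₑ) := by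
            have h7 : Measurable fun x => ‖Real.arcsin (g (L x)) - h (L x)‖ₑ :=
              ((hm.sub hh).comp hL).enorm
            rw [lintegral_withDensity_eq_lintegral_mul₀ hχ.1.enorm h7.aemeasurable]
            rfl
        _ = ∫⁻ y, ‖Real.arcsin (g y) - h y‖ₑ ∂ν := by
            have h8 : Measurable fun y => ‖Real.arcsin (g y) - h y‖ₑ := (hm.sub hh).enorm
            rw [hν, lintegral_map h8 hL]
        _ = eLpNorm ((fun y => Real.arcsin (g y)) - h) 1 ν := by
            rw [eLpNorm_one_eq_lintegral_enorm]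
            rfl
        _ ≤ _ := h3
    have h5 : Measurable fun x => g (L x) - Real.sin (h (L x)) :=
      (hg.comp hL).sub (Real.continuous_sin.measurable.comp (hh.comp hL))
    have h6 : AEStronglyMeasurable (fun x => χ x * (g (L x) - Real.sin (h (L x)))) P :=
      hχ.1.mul h5.aestronglyMeasurable
    have h7 : ∫ x, |χ x * (g (L x) - Real.sin (h (L x)))| ∂P =
        (∫⁻ x, ‖χ x * (g (L x) - Real.sin (h (L x)))‖ₑ ∂P).toReal := by
      rw [← integral_norm_eq_lintegral_enorm h6]
      rfl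
    show ∫ x, |χ x * (g (L x) - Real.sin (h (L x)))| ∂P ≤ ε
    rw [h7]
    exact ENNReal.toReal_le_of_le_ofReal hε.le h4

end Pool.Agent.Helper34.QD
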