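import Pool.Agent.Helper34.QD.Mn

/-!
# The determinants of the deviations
-/

set_option autoImplicit false

open Set Filter Topology MeasureTheory
open scoped NNReal ENNReal Matrix Real
open Pool.Agent.Y262.QE Pool.Agent.Y264.QR Pool.Agent.Y319.QR Pool.Agent.Y378.QR

noncomputable section

namespace Pool.Agent.Helper34.QD

/-- conditional expectations -/
theorem cex {Ω : Type} [MeasurableSpace Ω] (P : Measure Ω) [IsProbabilityMeasure P] {Y : Type}
    [MeasurableSpace Y] (Z : ℕ → Ω → Y) (hZ : ∀ k, Measurable (Z k)) (X : ℕ → Ω → ℝ)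
    (hX : ∀ k, Integrable (X k) P)
    (h : ∀ g : ℕ → Y → ℝ, (∀ k, Measurable (g k)) → (∀ k y, |g k y| ≤ 1) →
      Tendsto (fun k => ∫ o, g k (Z k o) * X k o ∂P) atTop (𝓝 0)) :
    Tendsto (fun k => ∫ o, |(P[X k | MeasurableSpace.comap (Z k) inferInstance]) o| ∂P) atTop
      (𝓝 0) := by
  classical
  have hm : ∀ k, MeasurableSpace.comap (Z k) inferInstance ≤ (inferInstance : MeasurableSpace Ω) :=
    fun k => (hZ k).comap_le
  have hA : ∀ k, ∃ A : Set Y, MeasurableSet A ∧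
      Z k ⁻¹' A = {o | 0 ≤ (P[X k | MeasurableSpace.comap (Z k) inferInstance]) o} := by
    intro k
    have h1 : Measurable[MeasurableSpace.comap (Z k) inferInstance]
        (P[X k | MeasurableSpace.comap (Z k) inferInstance]) :=
      stronglyMeasurable_condExp.measurable
    exact h1 measurableSet_Ici
  choose A hAm hAe using hA
  have h2 := h (fun k y => if y ∈ A k then 1 else -1)
    (fun k => Measurable.ite (hAm k) measurable_const measurable_const)
    (fun k y => by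
      by_cases hy : y ∈ A k
      · simp [hy]
      · simp [hy])
  refine h2.congr fun k => ?_
  set W := P[X k | MeasurableSpace.comap (Z k) inferInstance] with hW
  have hWi : Integrable W P := integrable_condExp
  have hS : MeasurableSet[MeasurableSpace.comap (Z k) inferInstance] (Z k ⁻¹' A k) :=
    ⟨A k, hAm k, rfl⟩
  have hS' : MeasurableSet (Z k ⁻¹' A k) := (hm k) _ hS
  have h3 : ∫ o, |W o| ∂P = ∫ o in Z k ⁻¹' A k, W o ∂P - ∫ o in (Z k ⁻¹' A k)ᶜ, W o ∂P := by
    rw [← integral_add_compl hS' hWi.abs, sub_eq_add_neg, ← integral_neg]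
    congr 1
    · refine setIntegral_congr_fun hS' fun o ho => ?_
      rw [hAe k] at ho
      exact abs_of_nonneg ho
    · refine setIntegral_congr_fun hS'.compl fun o ho => ?_
      rw [hAe k] at ho
      exact abs_of_neg (not_le.mp ho)
  rw [h3, setIntegral_condExp (hm k) (hX k) hS, setIntegral_condExp (hm k) (hX k) hS.compl]
  have h4 : Integrable (fun o => (if Z k o ∈ A k then (1 : ℝ) else -1) * X k o) P := by
    refine (hX k).bdd_mul (c := 1) ?_ (Eventually.of_forall fun o => ?_)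
    · exact ((Measurable.ite (hAm k) measurable_const measurable_const :
        Measurable fun y => if y ∈ A k then (1 : ℝ) else -1).comp (hZ k)).aestronglyMeasurable
    · by_cases hy : Z k o ∈ A k
      · simp [hy]
      · simp [hy]
  rw [← integral_add_compl hS' h4, sub_eq_add_neg, ← integral_neg]
  congr 1
  · refine setIntegral_congr_fun hS' fun o ho => ?_
    have : Z k o ∈ A k := ho
    simp [this]
  · refine setIntegral_congr_fun hS'.compl fun o ho => ?_
    have : Z k o ∉ A k := ho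
    simp [this]

section defs

variable {M : Type} [MetricSpace M] [CompactSpace M] [MeasurableSpace M] {H : Type}
  [NormedAddCommGroup H] [InnerProductSpace ℝ H] {n : ℕ}

/-- the matrix of the deviations -/
def dmat (μ : Measure M) (i : H →L[ℝ] Lp ℝ 2 μ) (J : Fin (n + 1) → ℕ) (e : C(M, ℝ) → ℕ → H)
    (f : Fin (n + 1) → C(M, ℝ)) (φ : C(M, ℝ)) : Matrix (Fin (n + 1)) (Fin (n + 1)) ℝ :=
  Matrix.of fun p q => kap μ i (f q) φ (e φ (J p)) - avg μ (f q) φ

end defs

variable {M : Type} [MetricSpace M] [CompactSpace M] [MeasurableSpace M] [BorelSpace M]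
    {μ : Measure M} [IsFiniteMeasure μ] [MeasurableSpace C(M, ℝ)] [BorelSpace C(M, ℝ)] {H : Type}
    [NormedAddCommGroup H] [InnerProductSpace ℝ H]
    {i : H →L[ℝ] Lp ℝ 2 μ} {a : H →L[ℝ] H →L[ℝ] ℝ} {b : C(M, ℝ) → H →L[ℝ] H →L[ℝ] ℝ}
    {e : C(M, ℝ) → ℕ → H} {E : C(M, ℝ) → ℕ → ℝ} {n : ℕ}
    {P : Measure C(M, ℝ)} [IsProbabilityMeasure P] {S : Set C(M, ℝ)}

theorem Hyp.kmeas (hy : Hyp μ i a b e E P S) (f : C(M, ℝ)) (j : ℕ)
    (hj : ∀ φ, 0 < Ev a (b φ) j) : AEStronglyMeasurable (fun φ => kap μ i f φ (e φ j)) P := by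
  let W : Submodule ℝ C(M, ℝ) :=
    { carrier := {f | AEStronglyMeasurable (fun φ => kap μ i f φ (e φ j)) P}
      zero_mem' := by
        change AEStronglyMeasurable (fun φ => kap μ i 0 φ (e φ j)) P
        simp only [kap_zero]
        exact aestronglyMeasurable_const
      add_mem' := fun {f g} hf hg => by
        change AEStronglyMeasurable (fun φ => kap μ i (f + g) φ (e φ j)) P
        simp only [kap_add]
        exact AEStronglyMeasurable.add hf hg
      smul_mem' := fun c f hf => by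
        change AEStronglyMeasurable (fun φ => kap μ i (c • f) φ (e φ j)) P
        simp only [kap_smul]
        exact AEStronglyMeasurable.const_mul hf c }
  have hW : Submodule.span ℝ S ≤ W := by
    rw [Submodule.span_le]
    intro h hh
    exact (tDr M μ H i a b hy.sf hy.isb hy.wl e E hy.eg P h (hy.qi h hh)).1 j hj
  have hap : ∀ ε : ℝ, 0 < ε → ∃ g ∈ Submodule.span ℝ S, ‖f - g‖ < ε := by
    intro ε hε
    obtain ⟨g, hg, hfg⟩ := Metric.dense_iff.mp hy.dn f ε hε
    refine ⟨g, hfg, ?_⟩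
    rw [Metric.mem_ball, dist_comm, dist_eq_norm] at hg
    exact hg
  choose g hg hg2 using fun n : ℕ => hap (1 / ((n : ℝ) + 1)) (by positivity)
  refine aestronglyMeasurable_of_tendsto_ae atTop (f := fun n φ => kap μ i (g n) φ (e φ j))
    (fun n => hW (hg n)) (Eventually.of_forall fun φ => ?_)
  rw [tendsto_iff_norm_sub_tendsto_zero]
  refine squeeze_zero (fun n => norm_nonneg _) (fun n => ?_) tendsto_one_div_add_atTop_nhds_zero_nat
  rw [← kap_sub, Real.norm_eq_abs]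
  refine (hy.kap_bd _ φ j).trans ?_
  rw [norm_sub_rev]
  exact (hg2 n).le

theorem Hyp.kap_one (hy : Hyp μ i a b e E P S) (φ : C(M, ℝ)) (j : ℕ) :
    kap μ i 1 φ (e φ j) = 1 := by
  have h1 := (hy.eg φ).orth j j
  rw [if_pos rfl, hy.isb φ] at h1
  rw [← h1]
  unfold kap
  refine integral_congr_ae (Eventually.of_forall fun x => ?_)
  simp only [ContinuousMap.one_apply]
  ring

theorem Hyp.avg_one (hy : Hyp μ i a b e E P S) (φ : C(M, ℝ)) : avg μ 1 φ = 1 := by
  unfold avg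
  simp only [ContinuousMap.one_apply, one_mul]
  exact div_self (hy.pos φ).ne'

/-- elimination of the first column -/
theorem Hyp.kdet (hy : Hyp μ i a b e E P S) (J : Fin (n + 1) → ℕ) (f : Fin (n + 1) → C(M, ℝ))
    (φ : C(M, ℝ)) : (kmat μ i J e (Fin.cons 1 f) φ).det = (dmat μ i J e f φ).det := by
  set f' : Fin (n + 2) → C(M, ℝ) := Fin.cons 1 f with hf'
  set B : Matrix (Fin (n + 2)) (Fin (n + 2)) ℝ :=
    Matrix.of (Fin.cons (fun q => avg μ (f' q) φ)
      fun p q => kap μ i (f' q) φ (e φ (J p)) - avg μ (f' q) φ) with hB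
  have h1 : (kmat μ i J e f' φ).det = B.det := by
    refine Matrix.det_eq_of_forall_row_eq_smul_add_const (Fin.cons 0 fun _ => 1) 0 rfl fun p q => ?_
    refine Fin.cases ?_ (fun p => ?_) p
    · show avg μ (f' q) φ = avg μ (f' q) φ + 0 * _
      ring
    · show kap μ i (f' q) φ (e φ (J p)) =
        (kap μ i (f' q) φ (e φ (J p)) - avg μ (f' q) φ) + 1 * avg μ (f' q) φ
      ring
  rw [h1, Matrix.det_succ_column_zero, Fin.sum_univ_succ]
  have h2 : ∀ p : Fin (n + 1), B p.succ 0 = 0 := by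
    intro p
    show kap μ i 1 φ (e φ (J p)) - avg μ 1 φ = 0
    rw [hy.kap_one, hy.avg_one, sub_self]
  have h3 : B 0 0 = 1 := hy.avg_one φ
  rw [Finset.sum_eq_zero fun p _ => by rw [h2 p, mul_zero, zero_mul], add_zero, h3]
  have h4 : B.submatrix (Fin.succAbove 0) Fin.succ = dmat μ i J e f φ := by
    ext p q
    rfl
  rw [h4]
  simp

theorem dmat_meas (hy : Hyp μ i a b e E P S) (J : Fin (n + 1) → ℕ)
    (hJ : ∀ p φ, 0 < Ev a (b φ) (J p)) (f : Fin (n + 1) → C(M, ℝ)) :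
    AEStronglyMeasurable (fun φ => (dmat μ i J e f φ).det) P := by
  have h1 := kmat_meas hy (fun p f => hy.kmeas f (J p) (hJ p)) (Fin.cons 1 f)
  simpa only [hy.kdet] using h1

theorem dmat_bd (hy : Hyp μ i a b e E P S) (J : Fin (n + 1) → ℕ)
    (f : Fin (n + 1) → C(M, ℝ)) : ∃ K : ℝ, 0 ≤ K ∧ ∀ φ, |(dmat μ i J e f φ).det| ≤ K := by
  refine ⟨(n + 2).factorial * ∏ q, ‖(Fin.cons 1 f : Fin (n + 2) → C(M, ℝ)) q‖,
    mul_nonneg (Nat.cast_nonneg _) (Finset.prod_nonneg fun q _ => norm_nonneg _), fun φ => ?_⟩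
  rw [← hy.kdet]
  exact kmat_bd hy J _ φ

/-- the area and the eigenvalues -/
def Zv (μ : Measure M) (a : H →L[ℝ] H →L[ℝ] ℝ) (b : C(M, ℝ) → H →L[ℝ] H →L[ℝ] ℝ)
    (J : Fin (n + 1) → ℕ) (φ : C(M, ℝ)) : ℝ × (Fin (n + 1) → ℝ) :=
  (∫ x, Real.exp (φ x) ∂μ, fun p => Ev a (b φ) (J p))

theorem Zv_meas (hy : Hyp μ i a b e E P S) (J : Fin (n + 1) → ℕ)
    (hJ : ∀ p φ, 0 < Ev a (b φ) (J p)) : Measurable (Zv μ a b J) :=
  (Ls_area hy.pos).cont.measurable.prodMk
    (measurable_pi_lambda _ fun p => (hy.ls (hJ p)).cont.measurable)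

/-- Borel functions of the area and of the eigenvalues -/
theorem md3 (hy : Hyp μ i a b e E P S) (J : Fin (n + 1) → ℕ → ℕ)
    (hJ0 : ∀ p k φ, 0 < Ev a (b φ) (J p k)) (hJ : Tendsto (J 0) atTop atTop)
    (f : Fin (n + 1) → C(M, ℝ)) (g : ℕ → ℝ × (Fin (n + 1) → ℝ) → ℝ) (hg : ∀ k, Measurable (g k))
    (hg1 : ∀ k y, |g k y| ≤ 1) (χ : C(M, ℝ) → ℝ) (hχ : Integrable χ P) :
    Tendsto (fun k => ∫ φ, χ φ * (g k (Zv μ a b (fun p => J p k) φ) *
      (dmat μ i (fun p => J p k) e f φ).det) ∂P) atTop (𝓝 0) := by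
  have h1 : ∀ k, Measurable fun y : Fin (n + 2) → ℝ => ((Real.exp (Real.log (4 * π) - y 0),
      fun p : Fin (n + 1) => Real.exp (y p.succ + Real.log ((J p k : ℝ) + 1))) :
      ℝ × (Fin (n + 1) → ℝ)) := by
    intro k
    refine (Real.measurable_exp.comp (measurable_const.sub (measurable_pi_apply 0))).prodMk
      (measurable_pi_lambda _ fun p => ?_)
    exact Real.measurable_exp.comp ((measurable_pi_apply p.succ).add_const _)
  have h2 := md2 hy J hJ0 (fun p k f => hy.kmeas f (J p k) (hJ0 p k)) hJ (Fin.cons 1 f)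
    (fun k y => g k (Real.exp (Real.log (4 * π) - y 0),
      fun p => Real.exp (y p.succ + Real.log ((J p k : ℝ) + 1))))
    (fun k => (hg k).comp (h1 k)) (fun k y => hg1 k _) χ hχ
  refine h2.congr fun k => ?_
  refine integral_congr_ae (Eventually.of_forall fun φ => ?_)
  have h3 : ((Real.exp (Real.log (4 * π) - Lg μ a b (fun p => J p k) φ 0),
      fun p : Fin (n + 1) => Real.exp (Lg μ a b (fun p => J p k) φ p.succ +
        Real.log ((J p k : ℝ) + 1))) : ℝ × (Fin (n + 1) → ℝ)) = Zv μ a b (fun p => J p k) φ := by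
    refine Prod.ext ?_ (funext fun p => ?_)
    · show Real.exp (Real.log (4 * π) - (Real.log (4 * π) -
        Real.log (∫ x, Real.exp (φ x) ∂μ))) = ∫ x, Real.exp (φ x) ∂μ
      rw [sub_sub_cancel, Real.exp_log (hy.pos φ)]
    · show Real.exp (Real.log (Ev a (b φ) (J p k)) - Real.log ((J p k : ℝ) + 1) +
        Real.log ((J p k : ℝ) + 1)) = Ev a (b φ) (J p k)
      rw [sub_add_cancel, Real.exp_log (hJ0 p k φ)]
  show χ φ * (g k _ * _) = _
  rw [h3, hy.kdet]

/-- one of the sequences of indices tends to infinity -/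
theorem md4 (hy : Hyp μ i a b e E P S) (J : Fin (n + 1) → ℕ → ℕ)
    (hJ0 : ∀ p k φ, 0 < Ev a (b φ) (J p k)) (hJ : ∃ p, Tendsto (J p) atTop atTop)
    (f : Fin (n + 1) → C(M, ℝ)) (g : ℕ → ℝ × (Fin (n + 1) → ℝ) → ℝ) (hg : ∀ k, Measurable (g k))
    (hg1 : ∀ k y, |g k y| ≤ 1) (χ : C(M, ℝ) → ℝ) (hχ : Integrable χ P) :
    Tendsto (fun k => ∫ φ, χ φ * (g k (Zv μ a b (fun p => J p k) φ) *
      (dmat μ i (fun p => J p k) e f φ).det) ∂P) atTop (𝓝 0) := by
  obtain ⟨p0, hp0⟩ := hJ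
  set σ : Equiv.Perm (Fin (n + 1)) := Equiv.swap 0 p0 with hσ
  have h0 : σ 0 = p0 := Equiv.swap_apply_left 0 p0
  have h1 := md3 hy (fun p => J (σ p)) (fun p k φ => hJ0 (σ p) k φ)
    (by show Tendsto (J (σ 0)) atTop atTop; rw [h0]; exact hp0) f
    (fun k y => g k (y.1, fun p => y.2 (σ p))) (fun k => (hg k).comp
      (measurable_fst.prodMk (measurable_pi_lambda _ fun p =>
        (measurable_pi_apply (σ p)).comp measurable_snd))) (fun k y => hg1 k _) χ hχ
  have h2 := h1.const_mul (((Equiv.Perm.sign σ : ℤ) : ℝ))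
  rw [mul_zero] at h2
  refine h2.congr fun k => ?_
  rw [← integral_const_mul]
  refine integral_congr_ae (Eventually.of_forall fun φ => ?_)
  have h3 : (dmat μ i (fun p => J (σ p) k) e f φ) =
      (dmat μ i (fun p => J p k) e f φ).submatrix σ id := by
    ext p q
    rfl
  have h4 : ((Zv μ a b (fun p => J (σ p) k) φ).1, fun p =>
      (Zv μ a b (fun p => J (σ p) k) φ).2 (σ p)) = Zv μ a b (fun p => J p k) φ := by
    refine Prod.ext rfl (funext fun p => ?_)
    show Ev a (b φ) (J (σ (σ p)) k) = Ev a (b φ) (J p k)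
    rw [hσ, Equiv.swap_apply_self]
  show ((Equiv.Perm.sign σ : ℤ) : ℝ) * (χ φ * (g k ((Zv μ a b (fun p => J (σ p) k) φ).1, fun p =>
      (Zv μ a b (fun p => J (σ p) k) φ).2 (σ p)) *
      (dmat μ i (fun p => J (σ p) k) e f φ).det)) = _
  rw [h3, h4, Matrix.det_permute]
  have h5 : ((Equiv.Perm.sign σ : ℤ) : ℝ) * ((Equiv.Perm.sign σ : ℤ) : ℝ) = 1 := by
    rcases Int.units_eq_one_or (Equiv.Perm.sign σ) with h | h <;> rw [h] <;> simp
  calc ((Equiv.Perm.sign σ : ℤ) : ℝ) * (χ φ * (g k (Zv μ a b (fun p => J p k) φ) *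
        (((Equiv.Perm.sign σ : ℤ) : ℝ) * (dmat μ i (fun p => J p k) e f φ).det)))
      = (((Equiv.Perm.sign σ : ℤ) : ℝ) * ((Equiv.Perm.sign σ : ℤ) : ℝ)) * (χ φ *
        (g k (Zv μ a b (fun p => J p k) φ) * (dmat μ i (fun p => J p k) e f φ).det)) := by ring
    _ = _ := by rw [h5, one_mul]

/-- conditional expectations -/
theorem md5 (hy : Hyp μ i a b e E P S) (J : Fin (n + 1) → ℕ → ℕ)
    (hJ0 : ∀ p k φ, 0 < Ev a (b φ) (J p k)) (hJ : ∃ p, Tendsto (J p) atTop atTop)
    (f : Fin (n + 1) → C(M, ℝ)) (χ : C(M, ℝ) → ℝ) (hχ : Integrable χ P) :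
    (∀ k, Integrable (fun φ => χ φ * (dmat μ i (fun p => J p k) e f φ).det) P) ∧
    Tendsto (fun k => ∫ φ, |(P[fun φ => χ φ * (dmat μ i (fun p => J p k) e f φ).det |
      MeasurableSpace.comap (Zv μ a b (fun p => J p k)) inferInstance]) φ| ∂P) atTop (𝓝 0) := by
  have h1 : ∀ k, Integrable (fun φ => χ φ * (dmat μ i (fun p => J p k) e f φ).det) P := by
    intro k
    obtain ⟨K, hK0, hK⟩ := dmat_bd hy (fun p => J p k) f
    exact hχ.mul_bdd (c := K) (dmat_meas hy (fun p => J p k) (fun p => hJ0 p k) f)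
      (Eventually.of_forall fun φ => hK φ)
  refine ⟨h1, ?_⟩
  refine cex P (fun k => Zv μ a b (fun p => J p k)) (fun k => Zv_meas hy _ fun p => hJ0 p k)
    (fun k φ => χ φ * (dmat μ i (fun p => J p k) e f φ).det) h1 fun g hg hg1 => ?_
  refine (md4 hy J hJ0 hJ f g hg hg1 χ hχ).congr fun k => ?_
  refine integral_congr_ae (Eventually.of_forall fun φ => ?_)
  show _ = _
  ring

end Pool.Agent.Helper34.QD
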