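import Pool.Agent.Helper34.QD.Dv
import Pool.Agent.Y264.QR.Top

/-!
# From the forms to the surface
-/

set_option autoImplicit false

open Set Filter Topology MeasureTheory
open scoped NNReal ENNReal Matrix Real
open Pool.Agent.Y262.QE Pool.Agent.Y264.QR

noncomputable section

namespace Pool.Agent.Helper34.QD

/-- the matrix of the deviations of the eigenfunctions -/
def devm {M : Type} [TopologicalSpace M] [MeasurableSpace M] (μ : Measure M) (φ : C(M, ℝ))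
    (u : ℕ → M → ℝ) {n : ℕ} (J : Fin n → ℕ) (f : Fin n → C(M, ℝ)) : Matrix (Fin n) (Fin n) ℝ :=
  Matrix.of fun p q => ∫ x, f q x * (u (J p) x) ^ 2 ∂(wm μ fun x => Real.exp (φ x)) -
    (∫ x, f q x ∂(wm μ fun x => Real.exp (φ x))) / (wm μ fun x => Real.exp (φ x)).real univ

/-- the area and the eigenvalues -/
def spc {M : Type} [TopologicalSpace M] [MeasurableSpace M] (μ : Measure M)
    (lam : C(M, ℝ) → ℕ → ℝ) {n : ℕ} (J : Fin n → ℕ) (φ : C(M, ℝ)) : ℝ × (Fin n → ℝ) :=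
  ((wm μ fun x => Real.exp (φ x)).real univ, fun p => lam φ (J p))

theorem fin (M : Type) [MetricSpace M] [CompactSpace M] [MeasurableSpace M] [BorelSpace M]
    [Nonempty M] (μ : Measure M) (D : Data M) (hD : D.IsSurf μ)
    [MeasurableSpace C(M, ℝ)] [BorelSpace C(M, ℝ)] (P : Measure C(M, ℝ)) [IsProbabilityMeasure P]
    (S : Set C(M, ℝ)) (hS : Dense (Submodule.span ℝ S : Set C(M, ℝ)))
    (hP : ∀ h ∈ S, ∀ t : ℝ, P.map (fun φ => φ + t • h) ≪ P)
    (u : C(M, ℝ) → ℕ → M → ℝ) (lam : C(M, ℝ) → ℕ → ℝ)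
    (hu : ∀ φ : C(M, ℝ), EigBasis (D.conf fun x => Real.exp (φ x))
      (wm μ fun x => Real.exp (φ x)) (u φ) (lam φ))
    (n : ℕ) (J : Fin n → ℕ → ℕ) (hpos : ∀ p k φ, 0 < lam φ (J p k))
    (hJ : ∃ p, Tendsto (J p) atTop atTop) (f : Fin n → C(M, ℝ)) :
    (∀ k, Measurable (spc μ lam fun p => J p k) ∧
      AEStronglyMeasurable (fun φ => (devm μ φ (u φ) (fun p => J p k) f).det) P ∧
      ∃ K : ℝ, ∀ φ, |(devm μ φ (u φ) (fun p => J p k) f).det| ≤ K) ∧
    (∀ g : ℕ → ℝ × (Fin n → ℝ) → ℝ, (∀ k, Measurable (g k)) → (∀ k y, |g k y| ≤ 1) →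
      ∀ χ : C(M, ℝ) → ℝ, Integrable χ P →
        Tendsto (fun k => ∫ φ, χ φ * (g k (spc μ lam (fun p => J p k) φ) *
          (devm μ φ (u φ) (fun p => J p k) f).det) ∂P) atTop (𝓝 0)) ∧
    ∀ χ : C(M, ℝ) → ℝ, Integrable χ P →
      Tendsto (fun k => ∫ φ, |(P[fun φ => χ φ * (devm μ φ (u φ) (fun p => J p k) f).det |
        MeasurableSpace.comap (spc μ lam fun p => J p k) inferInstance]) φ| ∂P) atTop (𝓝 0) := by
  rcases n with _ | n
  · obtain ⟨p, -⟩ := hJ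
    exact p.elim0
  obtain ⟨hf, -⟩ := tFin M μ D hD
  have := hf
  obtain ⟨i, a, hSf, hi, ha⟩ := tPackF M μ D hD inferInstance
  obtain ⟨b, hB, hF, -, -, -⟩ := tFm M μ (HF D μ) i a hSf
  have hW := tWl M μ D hD inferInstance i a b hSf hi ha hB
  choose e he1 he2 using fun φ => tBr M μ D hD i a b hSf hi ha hB hF φ (u φ) (lam φ) (hu φ)
  have hy : Hyp μ i a b e lam P S := ⟨hSf, hB, hW, he2, hS, hP⟩
  have hE : ∀ φ j, Ev a (b φ) j = lam φ j := fun φ j =>
    Pool.Agent.Y592.QE.mm (HF D μ) a (b φ) (hF φ) (e φ) (lam φ) (he2 φ) j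
  have hZ : ∀ J : Fin (n + 1) → ℕ, spc μ lam J = Zv μ a b J := by
    intro J
    funext φ
    refine Prod.ext ?_ (funext fun p => (hE φ (J p)).symm)
    show (wm μ fun x => Real.exp (φ x)).real univ = ∫ x, Real.exp (φ x) ∂μ
    have hm : Measurable fun x => Real.exp (φ x) :=
      (Real.continuous_exp.comp φ.continuous).measurable
    have h5 : (wm μ fun x => Real.exp (φ x)).real univ =
        ∫ x, (1 : ℝ) ∂(wm μ fun x => Real.exp (φ x)) := by simp
    rw [h5, integral_wm μ _ hm fun x => (Real.exp_pos _).le]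
    simp only [mul_one]
  have hD' : ∀ (J : Fin (n + 1) → ℕ) (φ : C(M, ℝ)), devm μ φ (u φ) J f = dmat μ i J e f φ := by
    intro J φ
    ext p q
    show _ - _ = kap μ i (f q) φ (e φ (J p)) - avg μ (f q) φ
    rw [kap_eq μ i (f q) φ _ _ (he1 φ (J p)), avg_eq]
  have hpos' : ∀ p k φ, 0 < Ev a (b φ) (J p k) := fun p k φ => by
    rw [hE]
    exact hpos p k φ
  refine ⟨fun k => ⟨?_, ?_, ?_⟩, fun g hg hg1 χ hχ => ?_, fun χ hχ => ?_⟩
  · rw [hZ]
    exact Zv_meas hy _ fun p => hpos' p k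
  · simp only [hD']
    exact dmat_meas hy _ (fun p => hpos' p k) f
  · simp only [hD']
    obtain ⟨K, -, hK⟩ := dmat_bd hy (fun p => J p k) f
    exact ⟨K, hK⟩
  · simp only [hD', hZ]
    exact md4 hy J hpos' hJ f g hg hg1 χ hχ
  · simp only [hD', hZ]
    exact (md5 hy J hpos' hJ f χ hχ).2

end Pool.Agent.Helper34.QD
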