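import Mathlib

/-!
# A primitive in the first variable, which vanishes on the diagonal
-/

set_option autoImplicit false

open Set Filter Topology MeasureTheory
open scoped NNReal ENNReal

noncomputable section

namespace Pool.Agent.Helper34.QD

section prim

variable {V : Type} [NormedAddCommGroup V] [NormedSpace ℝ V]

/-- the point at the time `t` of the segment -/
def seg (l : V →L[ℝ] ℝ) (w : V) (t : ℝ) : V →L[ℝ] V :=
  ContinuousLinearMap.id ℝ V + (t - 1) • l.smulRight w

theorem seg_apply (l : V →L[ℝ] ℝ) (w : V) (t : ℝ) (y : V) :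
    seg l w t y = y + ((t - 1) * l y) • w := by
  unfold seg
  simp [mul_smul]

theorem prim (l : V →L[ℝ] ℝ) (w : V) (hw : l w = 1) (G : V → ℝ) (hG : ContDiff ℝ 1 G)
    (hG1 : ∀ y, |G y| ≤ 1) [ProperSpace V] : ∃ Ψ : V → ℝ, Differentiable ℝ Ψ ∧
      (∀ y, fderiv ℝ Ψ y w = G y) ∧ (∀ y, |Ψ y| ≤ |l y|) ∧
      ∀ r : ℝ, ∃ L : ℝ≥0, LipschitzOnWith L Ψ (Metric.closedBall 0 r) := by
  classical
  set F : V → ℝ → ℝ := fun y t => l y * G (seg l w t y) with hF
  set F' : V → ℝ → V →L[ℝ] ℝ := fun y t =>
    l y • (fderiv ℝ G (seg l w t y)).comp (seg l w t) + G (seg l w t y) • l with hF'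
  have hsegc : Continuous fun p : V × ℝ => seg l w p.2 := by
    unfold seg
    fun_prop
  have hsegc2 : Continuous fun p : V × ℝ => seg l w p.2 p.1 := hsegc.clm_apply continuous_fst
  have hFc : Continuous fun p : V × ℝ => F p.1 p.2 :=
    (l.continuous.comp continuous_fst).mul (hG.continuous.comp hsegc2)
  have hF'c : Continuous fun p : V × ℝ => F' p.1 p.2 := by
    refine ((l.continuous.comp continuous_fst).smul ?_).add
      ((hG.continuous.comp hsegc2).smul continuous_const)
    exact ((hG.continuous_fderiv (by simp)).comp hsegc2).clm_comp hsegc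
  have hd : ∀ y t, HasFDerivAt (fun y => F y t) (F' y t) y := by
    intro y t
    have h1 : HasFDerivAt (fun y => G (seg l w t y))
        ((fderiv ℝ G (seg l w t y)).comp (seg l w t)) y :=
      ((hG.differentiable (by simp)).differentiableAt.hasFDerivAt).comp y
        (seg l w t).hasFDerivAt
    exact l.hasFDerivAt.mul h1
  have hbd : ∀ r : ℝ, ∃ C : ℝ, ∀ y ∈ Metric.closedBall (0 : V) r, ∀ t ∈ Icc (0 : ℝ) 1,
      ‖F' y t‖ ≤ C := by
    intro r
    obtain ⟨C, hC⟩ := ((isCompact_closedBall (0 : V) r).prod
      (isCompact_Icc (a := (0 : ℝ)) (b := 1))).exists_bound_of_continuousOn hF'c.continuousOn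
    exact ⟨C, fun y hy t ht => hC (y, t) ⟨hy, ht⟩⟩
  set Ψ : V → ℝ := fun y => ∫ t in (0 : ℝ)..1, F y t with hΨ
  have hΨd : ∀ y, HasFDerivAt Ψ (∫ t in (0 : ℝ)..1, F' y t) y := by
    intro y
    obtain ⟨C, hC⟩ := hbd (‖y‖ + 1)
    have hcF' : Continuous fun t => F' y t := hF'c.comp (continuous_const.prodMk continuous_id)
    refine intervalIntegral.hasFDerivAt_integral_of_dominated_of_fderiv_le
      (s := Metric.ball y 1) (bound := fun _ => C) (F' := F')
      (Metric.ball_mem_nhds y one_pos) (Eventually.of_forall fun z => ?_) ?_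
      hcF'.aestronglyMeasurable (Eventually.of_forall fun t ht z hz => ?_)
      intervalIntegrable_const (Eventually.of_forall fun t _ z _ => hd z t)
    · exact (hFc.comp (continuous_const.prodMk continuous_id)).aestronglyMeasurable
    · exact (hFc.comp (continuous_const.prodMk continuous_id)).intervalIntegrable _ _
    · rw [uIoc_of_le zero_le_one] at ht
      refine hC z ?_ t ⟨ht.1.le, ht.2⟩
      rw [Metric.mem_closedBall, dist_zero_right]
      rw [Metric.mem_ball, dist_eq_norm] at hz
      have := norm_add_le (z - y) y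
      rw [sub_add_cancel] at this
      linarith
  refine ⟨Ψ, fun y => (hΨd y).differentiableAt, fun y => ?_, fun y => ?_, fun r => ?_⟩
  · rw [(hΨd y).fderiv]
    have hcF' : Continuous fun t => F' y t := hF'c.comp (continuous_const.prodMk continuous_id)
    rw [ContinuousLinearMap.intervalIntegral_apply (hcF'.intervalIntegrable _ _)]
    have h1 : ∀ t ∈ uIcc (0 : ℝ) 1, HasDerivAt (fun t => t * G (seg l w t y)) (F' y t w) t := by
      intro t _
      have h2 : HasDerivAt (fun t : ℝ => seg l w t y) (l y • w) t := by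
        have h3 : HasDerivAt (fun t : ℝ => y + ((t - 1) * l y) • w) ((1 * l y) • w) t :=
          ((((hasDerivAt_id t).sub_const 1).mul_const (l y)).smul_const w).const_add y
        rw [one_mul] at h3
        have h4 : (fun t : ℝ => seg l w t y) = fun t : ℝ => y + ((t - 1) * l y) • w := by
          funext t
          rw [seg_apply]
        rwa [h4]
      have h5 : HasDerivAt (fun t : ℝ => G (seg l w t y)) (fderiv ℝ G (seg l w t y) (l y • w)) t :=
        ((hG.differentiable (by simp)).differentiableAt.hasFDerivAt).comp_hasDerivAt t h2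
      have h6 := (hasDerivAt_id t).mul h5
      refine h6.congr_deriv ?_
      have h7 : seg l w t w = t • w := by
        rw [seg_apply, hw, mul_one, sub_smul, one_smul]
        abel
      simp only [hF', _root_.add_apply, _root_.smul_apply,
        ContinuousLinearMap.comp_apply, smul_eq_mul, id_eq, map_smul]
      rw [h7, map_smul, hw, smul_eq_mul]
      ring
    rw [intervalIntegral.integral_eq_sub_of_hasDerivAt h1
      ((hcF'.clm_apply continuous_const).intervalIntegrable _ _)]
    rw [seg_apply, zero_mul, sub_zero, one_mul, sub_self, zero_mul, zero_smul, add_zero]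
  · have h1 : ‖∫ t in (0 : ℝ)..1, F y t‖ ≤ |l y| * |(1 : ℝ) - 0| := by
      refine intervalIntegral.norm_integral_le_of_norm_le_const fun t _ => ?_
      simp only [hF]
      rw [Real.norm_eq_abs, abs_mul]
      calc |l y| * |G (seg l w t y)| ≤ |l y| * 1 :=
            mul_le_mul_of_nonneg_left (hG1 _) (abs_nonneg _)
        _ = |l y| := mul_one _
    rwa [sub_zero, abs_one, mul_one, Real.norm_eq_abs] at h1
  · obtain ⟨C, hC⟩ := hbd r
    refine ⟨C.toNNReal, (convex_closedBall (0 : V) r).lipschitzOnWith_of_nnnorm_hasFDerivWithin_le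
      (fun y _ => (hΨd y).hasFDerivWithinAt) fun y hy => ?_⟩
    have h1 : ‖∫ t in (0 : ℝ)..1, F' y t‖ ≤ C * |(1 : ℝ) - 0| := by
      refine intervalIntegral.norm_integral_le_of_norm_le_const fun t ht => ?_
      rw [uIoc_of_le zero_le_one] at ht
      exact hC y hy t ⟨ht.1.le, ht.2⟩
    rw [sub_zero, abs_one, mul_one] at h1
    rw [← NNReal.coe_le_coe, coe_nnnorm]
    exact h1.trans (Real.le_coe_toNNReal C)

end prim

end Pool.Agent.Helper34.QD
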