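import Pool.Agent.Helper34.QD.Jac
import Pool.Agent.Helper34.QD.Pr

/-!
# Integration by parts for Jacobian determinants of Lipschitz functions
-/

set_option autoImplicit false

open Set Filter Topology MeasureTheory
open scoped NNReal ENNReal Matrix

noncomputable section

namespace Pool.Agent.Helper34.QD

variable {m : ℕ}

/-- the gradient -/
def grd (f : (Fin m → ℝ) → ℝ) (x : Fin m → ℝ) : Fin m → ℝ := fun b => fderiv ℝ f x (Pi.single b 1)

/-- the Jacobian determinant -/
def Jd (F : Fin m → (Fin m → ℝ) → ℝ) (x : Fin m → ℝ) : ℝ :=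
  Matrix.det (Matrix.of fun a => grd (F a) x)

theorem Jd_eq (F : Fin m → (Fin m → ℝ) → ℝ) (x : Fin m → ℝ)
    (h : ∀ a, DifferentiableAt ℝ (F a) x) :
    (fderiv ℝ (fun y a => F a y) x).det = Jd F x := by
  have h1 : HasFDerivAt (fun y a => F a y)
      (ContinuousLinearMap.pi fun a => fderiv ℝ (F a) x) x :=
    hasFDerivAt_pi.mpr fun a => (h a).hasFDerivAt
  rw [h1.fderiv]
  have h2 : (ContinuousLinearMap.pi fun a => fderiv ℝ (F a) x).det =
      (LinearMap.toMatrix' ((ContinuousLinearMap.pi fun a => fderiv ℝ (F a) x :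
        (Fin m → ℝ) →L[ℝ] (Fin m → ℝ)) : (Fin m → ℝ) →ₗ[ℝ] (Fin m → ℝ))).det := by
    rw [LinearMap.det_toMatrix']
  rw [h2]
  unfold Jd
  congr 1

/-- a Lipschitz function with compact support which agrees with `f` on a ball -/
theorem clamp (f : (Fin m → ℝ) → ℝ) (L : ℝ≥0) (hf : LipschitzWith L f) (R : ℝ) :
    ∃ (g : (Fin m → ℝ) → ℝ) (R' : ℝ) (K : ℝ), LipschitzWith (L + 1) g ∧
      (∀ x, ‖x‖ ≤ R → g x = f x) ∧ (∀ x, R' < ‖x‖ → g x = 0) ∧ (∀ x, |g x| ≤ K) ∧
      ∀ x, f x = 0 → g x = 0 := by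
  set T : ℝ := |f 0| + (2 * L + 1) * max R 0 with hT
  have hT0 : 0 ≤ T := by
    have := le_max_right R 0
    positivity
  set M : (Fin m → ℝ) → ℝ := fun x => max 0 (T - (L + 1) * ‖x‖) with hM
  have hMl : LipschitzWith (L + 1) M := by
    refine LipschitzWith.of_dist_le_mul fun x y => ?_
    simp only [hM]
    rw [Real.dist_eq]
    refine (abs_max_sub_max_le_max 0 (T - (L + 1) * ‖x‖) 0 (T - (L + 1) * ‖y‖)).trans ?_
    rw [sub_self, abs_zero]
    have h1 : T - (L + 1) * ‖x‖ - (T - (L + 1) * ‖y‖) = (L + 1) * (‖y‖ - ‖x‖) := by ring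
    rw [h1, abs_mul, abs_of_nonneg (by positivity : (0 : ℝ) ≤ L + 1)]
    have h2 : (((L + 1 : ℝ≥0)) : ℝ) = (L : ℝ) + 1 := by push_cast; ring
    rw [h2]
    refine max_le (by positivity) (mul_le_mul_of_nonneg_left ?_ (by positivity))
    rw [abs_sub_comm, dist_eq_norm]
    exact abs_norm_sub_norm_le x y
  have hMn : LipschitzWith (L + 1) fun x => -M x := by
    refine LipschitzWith.of_dist_le_mul fun x y => ?_
    rw [dist_neg_neg]
    exact hMl.dist_le_mul x y
  have hM0 : ∀ x, 0 ≤ M x := fun x => le_max_left _ _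
  have hMT : ∀ x, M x ≤ T := by
    intro x
    simp only [hM]
    refine max_le hT0 ?_
    have : (0 : ℝ) ≤ (L + 1) * ‖x‖ := by positivity
    linarith
  refine ⟨fun x => max (-M x) (min (M x) (f x)), T, T, ?_, ?_, ?_, ?_, ?_⟩
  · have h1 : LipschitzWith (L + 1) fun x => min (M x) (f x) := by
      have := hMl.min (hf.weaken (le_add_of_nonneg_right zero_le_one : L ≤ L + 1))
      rwa [max_self] at this
    have := hMn.max h1
    rwa [max_self] at this
  · intro x hx
    have h1 : |f x| ≤ M x := by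
      have h2 := hf.dist_le_mul x 0
      rw [Real.dist_eq, dist_zero_right] at h2
      have h3 : |f x| ≤ |f 0| + L * ‖x‖ := by
        have := abs_sub_abs_le_abs_sub (f x) (f 0)
        linarith
      have h4 : ‖x‖ ≤ max R 0 := hx.trans (le_max_left _ _)
      simp only [hM]
      refine le_trans ?_ (le_max_right _ _)
      have h5 : (2 * (L : ℝ) + 1) * ‖x‖ ≤ (2 * L + 1) * max R 0 :=
        mul_le_mul_of_nonneg_left h4 (by positivity)
      rw [hT]
      linarith
    obtain ⟨h2, h3⟩ := abs_le.mp h1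
    show max (-M x) (min (M x) (f x)) = f x
    rw [min_eq_right h3, max_eq_right h2]
  · intro x hx
    have h1 : M x = 0 := by
      simp only [hM]
      apply max_eq_left
      have h2 : (1 : ℝ) * ‖x‖ ≤ (L + 1) * ‖x‖ := by
        refine mul_le_mul_of_nonneg_right ?_ (norm_nonneg _)
        have : (0 : ℝ) ≤ L := L.2
        linarith
      linarith
    show max (-M x) (min (M x) (f x)) = 0
    rw [h1, neg_zero]
    rcases le_total 0 (f x) with h | h
    · rw [min_eq_left h, max_self]
    · rw [min_eq_right h, max_eq_left h]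
  · intro x
    show |max (-M x) (min (M x) (f x))| ≤ T
    rw [abs_le]
    constructor
    · exact (neg_le_neg (hMT x)).trans (le_max_left _ _)
    · refine max_le ?_ ((min_le_left _ _).trans (hMT x))
      have := hM0 x
      linarith
  · intro x hx
    show max (-M x) (min (M x) (f x)) = 0
    rw [hx, min_eq_right (hM0 x), max_eq_right (neg_nonpos.mpr (hM0 x))]

/-- the integral of a Jacobian determinant vanishes if the first function has compact support -/
theorem int_Jd {n : ℕ} (F : Fin (n + 1) → (Fin (n + 1) → ℝ) → ℝ) (L : ℝ≥0)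
    (hF : ∀ a, LipschitzWith L (F a)) (R : ℝ) (hR : ∀ x, R < ‖x‖ → F 0 x = 0) :
    ∫ x, Jd F x = 0 := by
  choose g R' K hg1 hg2 hg3 _ hg5 using fun a => clamp (F a) L (hF a) (R + 1)
  obtain ⟨R0, hR0⟩ : ∃ R0 : ℝ, ∀ a, R' a ≤ R0 :=
    ⟨∑ a, |R' a|, fun a => (le_abs_self _).trans
      (Finset.single_le_sum (f := fun a => |R' a|) (fun b _ => abs_nonneg _) (Finset.mem_univ a))⟩
  have hz : ∀ x, max R0 R < ‖x‖ → (fun a => g a x) = 0 := by
    intro x hx
    funext a
    exact hg3 a x ((hR0 a).trans_lt (lt_of_le_of_lt (le_max_left _ _) hx))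
  have hLip : LipschitzWith (L + 1) fun (y : Fin (n + 1) → ℝ) a => g a y := by
    refine LipschitzWith.of_dist_le_mul fun x y => ?_
    rw [dist_pi_le_iff (by positivity)]
    intro a
    exact (hg1 a).dist_le_mul x y
  have h1 := int_det_zero (Nat.succ_pos n) (fun y a => g a y) (L + 1) hLip (max R0 R) hz
  have h2 : (fun x => (fderiv ℝ (fun (y : Fin (n + 1) → ℝ) a => g a y) x).det) =ᵐ[volume]
      fun x => Jd g x := by
    have h3 : ∀ᵐ x : Fin (n + 1) → ℝ, ∀ a, DifferentiableAt ℝ (g a) x :=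
      ae_all_iff.mpr fun a => (hg1 a).ae_differentiableAt
    filter_upwards [h3] with x hx
    exact Jd_eq g x hx
  have h4 : ∀ x, Jd F x = Jd g x := by
    intro x
    by_cases hx : ‖x‖ < R + 1
    · have h5 : ∀ a, grd (F a) x = grd (g a) x := by
        intro a
        have h6 : F a =ᶠ[𝓝 x] g a := by
          have h7 : Metric.ball (0 : Fin (n + 1) → ℝ) (R + 1) ∈ 𝓝 x :=
            Metric.isOpen_ball.mem_nhds (by rwa [Metric.mem_ball, dist_zero_right])
          filter_upwards [h7] with y hy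
          rw [Metric.mem_ball, dist_zero_right] at hy
          exact (hg2 a y hy.le).symm
        unfold grd
        rw [h6.fderiv_eq]
      unfold Jd
      congr 1
      ext a b
      rw [Matrix.of_apply, Matrix.of_apply, h5]
    · -- both vanish
      have h7 : (Metric.closedBall (0 : Fin (n + 1) → ℝ) R)ᶜ ∈ 𝓝 x := by
        refine Metric.isClosed_closedBall.isOpen_compl.mem_nhds ?_
        rw [mem_compl_iff, Metric.mem_closedBall, dist_zero_right]
        linarith
      have h5 : F 0 =ᶠ[𝓝 x] fun _ => 0 := by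
        filter_upwards [h7] with y hy
        apply hR
        rwa [mem_compl_iff, Metric.mem_closedBall, dist_zero_right, not_le] at hy
      have h5' : g 0 =ᶠ[𝓝 x] fun _ => 0 := by
        filter_upwards [h5] with y hy
        exact hg5 0 y hy
      have h8 : ∀ f : (Fin (n + 1) → ℝ) → ℝ, f =ᶠ[𝓝 x] (fun _ => 0) → grd f x = 0 := by
        intro f hf
        unfold grd
        rw [hf.fderiv_eq]
        funext b
        simp
      have h9 : ∀ G : Fin (n + 1) → (Fin (n + 1) → ℝ) → ℝ, grd (G 0) x = 0 → Jd G x = 0 := by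
        intro G hG
        unfold Jd
        refine Matrix.det_eq_zero_of_row_eq_zero 0 fun b => ?_
        rw [Matrix.of_apply, hG]
        rfl
      rw [h9 F (h8 _ h5), h9 g (h8 _ h5')]
  rw [integral_congr_ae (Eventually.of_forall h4), ← integral_congr_ae h2]
  exact h1

theorem lmul {X : Type} [PseudoMetricSpace X] (f g : X → ℝ) (Lf Lg A B : ℝ≥0)
    (hf : LipschitzWith Lf f) (hg : LipschitzWith Lg g) (hA : ∀ x, |f x| ≤ A)
    (hB : ∀ x, |g x| ≤ B) : LipschitzWith (A * Lg + B * Lf) fun x => f x * g x := by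
  refine LipschitzWith.of_dist_le_mul fun x y => ?_
  have h1 := hf.dist_le_mul x y
  have h2 := hg.dist_le_mul x y
  rw [Real.dist_eq] at h1 h2 ⊢
  have h3 : f x * g x - f y * g y = f x * (g x - g y) + g y * (f x - f y) := by ring
  have h4 : |f x * (g x - g y)| ≤ A * (Lg * dist x y) := by
    rw [abs_mul]
    exact mul_le_mul (hA x) h2 (abs_nonneg _) A.2
  have h5 : |g y * (f x - f y)| ≤ B * (Lf * dist x y) := by
    rw [abs_mul]
    exact mul_le_mul (hB y) h1 (abs_nonneg _) B.2
  rw [h3]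
  refine (abs_add_le _ _).trans ((add_le_add h4 h5).trans_eq ?_)
  push_cast
  ring

theorem grd_bd (f : (Fin m → ℝ) → ℝ) (L : ℝ≥0) (hf : LipschitzWith L f) (x : Fin m → ℝ)
    (b : Fin m) : |grd f x b| ≤ L := by
  unfold grd
  have h1 := (fderiv ℝ f x).le_opNorm (Pi.single b (1 : ℝ))
  have h2 : ‖(Pi.single b (1 : ℝ) : Fin m → ℝ)‖ ≤ 1 := by
    rw [pi_norm_le_iff_of_nonneg zero_le_one]
    intro a
    by_cases h : a = b
    · subst h
      simp
    · rw [Pi.single_eq_of_ne h]
      simp
  have h3 : ‖fderiv ℝ f x‖ ≤ L := norm_fderiv_le_of_lipschitz ℝ hf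
  rw [← Real.norm_eq_abs]
  calc ‖(fderiv ℝ f x) (Pi.single b (1 : ℝ))‖ ≤ ‖fderiv ℝ f x‖ * ‖(Pi.single b (1 : ℝ) :
        Fin m → ℝ)‖ := h1
    _ ≤ L * 1 := mul_le_mul h3 h2 (norm_nonneg _) L.2
    _ = L := mul_one _

theorem Jd_bd (F : Fin m → (Fin m → ℝ) → ℝ) (L : ℝ≥0) (hF : ∀ a, LipschitzWith L (F a))
    (x : Fin m → ℝ) : |Jd F x| ≤ m.factorial * (L : ℝ) ^ m := by
  have h := Matrix.det_le (A := Matrix.of fun a => grd (F a) x)
    (abv := IsAbsoluteValue.toAbsoluteValue (abs : ℝ → ℝ)) (x := (L : ℝ))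
    (fun i j => grd_bd (F i) L (hF i) x j)
  rw [Fintype.card_fin, nsmul_eq_mul] at h
  exact h

theorem grd_meas (f : (Fin m → ℝ) → ℝ) (b : Fin m) : Measurable fun x => grd f x b := by
  unfold grd
  exact measurable_fderiv_apply_const ℝ f (Pi.single b 1)

theorem Jd_meas (F : Fin m → (Fin m → ℝ) → ℝ) : Measurable (Jd F) := by
  have h : Jd F = fun x => ∑ σ : Equiv.Perm (Fin m), ((Equiv.Perm.sign σ : ℤ) : ℝ) *
      ∏ i, grd (F (σ i)) x i := by
    funext x
    unfold Jd
    rw [Matrix.det_apply']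
    rfl
  rw [h]
  refine Finset.measurable_sum _ fun σ _ => ?_
  exact (Finset.measurable_prod _ fun i _ => grd_meas (F (σ i)) i).const_mul _

/-- the main bound -/
theorem bnd {n : ℕ} (H : Fin (n + 2) → (Fin (n + 2) → ℝ) → ℝ) (L Lχ : ℝ≥0)
    (hH : ∀ a, LipschitzWith L (H a)) (χ : (Fin (n + 2) → ℝ) → ℝ) (hχ : Differentiable ℝ χ)
    (hχL : LipschitzWith Lχ χ) (R : ℝ) (hχR : ∀ x, R < ‖x‖ → χ x = 0)
    (g : (Fin (n + 2) → ℝ) → ℝ) (hg : ContDiff ℝ 1 g) (hg1 : ∀ y, |g y| ≤ 1) :
    |∫ x, χ x * g (fun a => H a x) * Jd H x| ≤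
      ((n + 2).factorial * ((max Lχ L : ℝ≥0) : ℝ) ^ (n + 2)) *
        ∫ x in Metric.closedBall (0 : Fin (n + 2) → ℝ) R, |H 0 x - H 1 x| := by
  classical
  set B := Metric.closedBall (0 : Fin (n + 2) → ℝ) R with hB
  have hBm : MeasurableSet B := Metric.isClosed_closedBall.measurableSet
  have hBf : volume B < ⊤ := measure_closedBall_lt_top
  set C : ℝ := (n + 2).factorial * ((max Lχ L : ℝ≥0) : ℝ) ^ (n + 2) with hC
  have hC0 : 0 ≤ C := by positivity
  -- the primitive
  obtain ⟨Ψ, hΨd, hΨg, hΨb, hΨL⟩ := prim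
    ((ContinuousLinearMap.proj 0 : (Fin (n + 2) → ℝ) →L[ℝ] ℝ) - ContinuousLinearMap.proj 1)
    (Pi.single 0 1) (by simp) g hg hg1
  have hΨb' : ∀ y : Fin (n + 2) → ℝ, |Ψ y| ≤ |y 0 - y 1| := fun y => hΨb y
  set K : (Fin (n + 2) → ℝ) → ℝ := fun x => χ x * Ψ (fun a => H a x) with hK
  -- `K` is Lipschitz
  obtain ⟨LK, hLK⟩ : ∃ LK : ℝ≥0, LipschitzWith LK K := by
    choose h R' K' h1 h2 h3 h4 _ using fun a => clamp (H a) L (hH a) R
    have h5 : K = fun x => χ x * Ψ (fun a => h a x) := by
      funext x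
      simp only [hK]
      by_cases hx : ‖x‖ ≤ R
      · simp only [h2 _ x hx]
      · rw [hχR x (not_le.mp hx), zero_mul, zero_mul]
    have hK0 : ∀ a, 0 ≤ K' a := fun a => (abs_nonneg _).trans (h4 a 0)
    obtain ⟨r0, hr0⟩ : ∃ r0 : ℝ, ∀ a, K' a ≤ r0 :=
      ⟨∑ a, K' a, fun a => Finset.single_le_sum (fun b _ => hK0 b) (Finset.mem_univ a)⟩
    have hr00 : 0 ≤ r0 := (hK0 0).trans (hr0 0)
    have hball : ∀ x, (fun a => h a x) ∈ Metric.closedBall (0 : Fin (n + 2) → ℝ) r0 := by
      intro x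
      rw [Metric.mem_closedBall, dist_zero_right, pi_norm_le_iff_of_nonneg hr00]
      exact fun a => (h4 a x).trans (hr0 a)
    obtain ⟨LΨ, hLΨ⟩ := hΨL r0
    have hhl : LipschitzWith (L + 1) fun x a => h a x := by
      refine LipschitzWith.of_dist_le_mul fun x y => ?_
      rw [dist_pi_le_iff (by positivity)]
      intro a
      exact (h1 a).dist_le_mul x y
    have h9 : LipschitzWith (LΨ * (L + 1)) fun x => Ψ (fun a => h a x) := by
      refine LipschitzWith.of_dist_le_mul fun x y => ?_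
      refine (hLΨ.dist_le_mul _ (hball x) _ (hball y)).trans ?_
      rw [NNReal.coe_mul, mul_assoc]
      exact mul_le_mul_of_nonneg_left (hhl.dist_le_mul x y) LΨ.2
    obtain ⟨r1, hr1⟩ : ∃ r1 : ℝ≥0, (r1 : ℝ) = K' 0 + K' 1 :=
      ⟨⟨K' 0 + K' 1, add_nonneg (hK0 0) (hK0 1)⟩, rfl⟩
    obtain ⟨r2, hr2⟩ : ∃ r2 : ℝ≥0, (r2 : ℝ) = |R| + 1 + (|R| + 1) :=
      ⟨⟨|R| + 1 + (|R| + 1), by positivity⟩, rfl⟩
    have h10 : ∀ x, |Ψ (fun a => h a x)| ≤ (r1 : ℝ) := by
      intro x
      refine (hΨb' _).trans ?_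
      rw [hr1]
      exact (abs_sub _ _).trans (add_le_add (h4 0 x) (h4 1 x))
    have h11 : ∀ x, |χ x| ≤ ((Lχ * r2 : ℝ≥0) : ℝ) := by
      intro x
      by_cases hx : ‖x‖ ≤ R
      · -- compare with a point outside the ball
        have hR0 : 0 ≤ R := (norm_nonneg x).trans hx
        set z : Fin (n + 2) → ℝ := fun _ => R + 1 with hz
        have hzn : ‖z‖ = R + 1 := by
          rw [hz, pi_norm_const, Real.norm_eq_abs, abs_of_nonneg (by linarith)]
        have h12 := hχL.dist_le_mul x z
        rw [hχR z (by rw [hzn]; linarith), Real.dist_eq, sub_zero] at h12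
        refine h12.trans ?_
        rw [NNReal.coe_mul, hr2]
        refine mul_le_mul_of_nonneg_left ?_ Lχ.2
        rw [dist_eq_norm, abs_of_nonneg hR0]
        refine (norm_sub_le _ _).trans ?_
        rw [hzn]
        linarith
      · rw [hχR x (not_le.mp hx), abs_zero]
        exact NNReal.coe_nonneg _
    have h13 := lmul _ _ _ _ _ _ hχL h9 h11 h10
    rw [← h5] at h13
    exact ⟨_, h13⟩
  -- the vanishing integral
  have hzero := int_Jd (Function.update H 0 K) (max LK L) (fun a => by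
    by_cases ha : a = 0
    · subst ha
      rw [Function.update_self]
      exact hLK.weaken (le_max_left _ _)
    · rw [Function.update_of_ne ha]
      exact (hH a).weaken (le_max_right _ _)) R (fun x hx => by
    rw [Function.update_self]
    simp only [hK]
    rw [hχR x hx, zero_mul])
  -- the pointwise identity
  have hid : ∀ᵐ x : Fin (n + 2) → ℝ, Jd (Function.update H 0 K) x =
      Ψ (fun a => H a x) * Jd (Function.update H 0 χ) x +
        χ x * g (fun a => H a x) * Jd H x := by
    have h1 : ∀ᵐ x : Fin (n + 2) → ℝ, ∀ a, DifferentiableAt ℝ (H a) x :=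
      ae_all_iff.mpr fun a => (hH a).ae_differentiableAt
    filter_upwards [h1] with x hx
    set M : Matrix (Fin (n + 2)) (Fin (n + 2)) ℝ := Matrix.of fun a => grd (H a) x with hM
    let D : (Fin (n + 2) → ℝ) →ₗ[ℝ] ℝ :=
      { toFun := fun w => (M.updateRow 0 w).det
        map_add' := fun u v => Matrix.det_updateRow_add M 0 u v
        map_smul' := fun s u => by
          rw [Matrix.det_updateRow_smul]
          rfl }
    have hD : ∀ f : (Fin (n + 2) → ℝ) → ℝ, Jd (Function.update H 0 f) x = D (grd f x) := by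
      intro f
      show _ = (M.updateRow 0 (grd f x)).det
      unfold Jd
      congr 1
      ext a b
      by_cases ha : a = 0
      · subst ha
        rw [Matrix.of_apply, Function.update_self, Matrix.updateRow_self]
      · rw [Matrix.of_apply, Function.update_of_ne ha, Matrix.updateRow_ne ha]
        rfl
    have hDr : ∀ a, a ≠ 0 → D (grd (H a) x) = 0 := fun a ha =>
      Matrix.det_updateRow_eq_zero (M := M) ha
    have hDH : D (grd (H 0) x) = Jd H x := by
      rw [← hD, Function.update_eq_self]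
    have hgrad : grd K x = (Ψ (fun a => H a x)) • grd χ x +
        ∑ a : Fin (n + 2), (χ x *
          fderiv ℝ Ψ (fun a => H a x) (Pi.single a 1)) • grd (H a) x := by
      have k2 : HasFDerivAt (fun y (a : Fin (n + 2)) => H a y)
          (ContinuousLinearMap.pi fun a : Fin (n + 2) => fderiv ℝ (H a) x) x :=
        hasFDerivAt_pi.mpr fun a => (hx a).hasFDerivAt
      have k3 : HasFDerivAt (fun y => Ψ (fun a => H a y))
          ((fderiv ℝ Ψ (fun a => H a x)).comp
            (ContinuousLinearMap.pi fun a : Fin (n + 2) => fderiv ℝ (H a) x)) x :=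
        (hΨd.differentiableAt.hasFDerivAt).comp x k2
      have k4 := ((hχ x).hasFDerivAt).mul k3
      have k5 : fderiv ℝ K x = _ := k4.fderiv
      funext b
      have k6 : grd K x b = fderiv ℝ K x (Pi.single b 1) := rfl
      rw [k6, k5]
      have k7 : (fderiv ℝ Ψ (fun a => H a x)) (fun a : Fin (n + 2) =>
          (fderiv ℝ (H a) x) (Pi.single b 1)) =
          ∑ a : Fin (n + 2), (fderiv ℝ Ψ (fun a => H a x)) (Pi.single a 1) *
            (fderiv ℝ (H a) x) (Pi.single b 1) := by
        conv_lhs => rw [← Finset.univ_sum_single (fun a : Fin (n + 2) =>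
          (fderiv ℝ (H a) x) (Pi.single b 1)), map_sum]
        refine Finset.sum_congr rfl fun a _ => ?_
        have : (Pi.single a ((fderiv ℝ (H a) x) (Pi.single b 1)) : Fin (n + 2) → ℝ) =
            ((fderiv ℝ (H a) x) (Pi.single b 1)) • (Pi.single a 1 : Fin (n + 2) → ℝ) := by
          rw [← Pi.single_smul, smul_eq_mul, mul_one]
        rw [this, map_smul, smul_eq_mul, mul_comm]
      simp only [ContinuousLinearMap.add_apply, ContinuousLinearMap.smul_apply,
        ContinuousLinearMap.comp_apply, Pi.add_apply, Pi.smul_apply,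
        Finset.sum_apply, smul_eq_mul]
      have k8 : (ContinuousLinearMap.pi fun a : Fin (n + 2) => fderiv ℝ (H a) x)
          (Pi.single b 1) = fun a : Fin (n + 2) => (fderiv ℝ (H a) x) (Pi.single b 1) := rfl
      rw [k8, k7]
      unfold grd
      rw [Finset.mul_sum]
      have k9 : ∀ a : Fin (n + 2), χ x *
          (fderiv ℝ Ψ fun a => H a x) (Pi.single a 1) *
            (fderiv ℝ (H a) x) (Pi.single b 1) = χ x *
          ((fderiv ℝ Ψ fun a => H a x) (Pi.single a 1) *
            (fderiv ℝ (H a) x) (Pi.single b 1)) := fun a => by ring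
      rw [Finset.sum_congr rfl fun a _ => k9 a]
      ring
    rw [hD, hD, hgrad, map_add, map_smul, map_sum]
    have h2 : ∀ a : Fin (n + 2), D ((χ x *
        fderiv ℝ Ψ (fun a => H a x) (Pi.single a 1)) • grd (H a) x) =
        if a = 0 then χ x * g (fun a => H a x) * Jd H x else 0 := by
      intro a
      rw [map_smul]
      by_cases ha : a = 0
      · subst ha
        rw [if_pos rfl, hDH, hΨg, smul_eq_mul]
      · rw [if_neg ha, hDr a ha, smul_zero]
    rw [Finset.sum_congr rfl fun a _ => h2 a, Finset.sum_ite_eq']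
    simp only [smul_eq_mul, Finset.mem_univ, if_true]
  -- integrability
  have hmH : ∀ a, Measurable (H a) := fun a => (hH a).continuous.measurable
  have hmHa : Measurable fun x a => H a x := measurable_pi_lambda _ fun a => hmH a
  have hmg : Measurable fun x => g (fun a => H a x) := hg.continuous.measurable.comp hmHa
  have hmΨ : Measurable fun x => Ψ (fun a => H a x) := hΨd.continuous.measurable.comp hmHa
  have hJχ : ∀ x, |Jd (Function.update H 0 χ) x| ≤ C := by
    intro x
    refine Jd_bd _ (max Lχ L) (fun a => ?_) x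
    by_cases ha : a = 0
    · subst ha
      rw [Function.update_self]
      exact hχL.weaken (le_max_left _ _)
    · rw [Function.update_of_ne ha]
      exact (hH a).weaken (le_max_right _ _)
  have hJH : ∀ x, |Jd H x| ≤ C := by
    intro x
    exact Jd_bd _ (max Lχ L) (fun a => (hH a).weaken (le_max_right _ _)) x
  have hJ0 : ∀ x, x ∉ B → Jd (Function.update H 0 χ) x = 0 := by
    intro x hx
    have h5 : χ =ᶠ[𝓝 x] fun _ => 0 := by
      have h7 : Bᶜ ∈ 𝓝 x := Metric.isClosed_closedBall.isOpen_compl.mem_nhds hx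
      filter_upwards [h7] with y hy
      apply hχR
      rwa [hB, mem_compl_iff, Metric.mem_closedBall, dist_zero_right, not_le] at hy
    unfold Jd
    refine Matrix.det_eq_zero_of_row_eq_zero 0 fun b => ?_
    rw [Matrix.of_apply, Function.update_self]
    unfold grd
    rw [h5.fderiv_eq]
    simp
  have hχ0 : ∀ x, x ∉ B → χ x = 0 := by
    intro x hx
    apply hχR
    rwa [hB, Metric.mem_closedBall, dist_zero_right, not_le] at hx
  have hbdB : ∀ f : (Fin (n + 2) → ℝ) → ℝ, Continuous f → ∃ c, ∀ x ∈ B, |f x| ≤ c := by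
    intro f hf
    obtain ⟨c, hc⟩ := (isCompact_closedBall (0 : Fin (n + 2) → ℝ) R).exists_bound_of_continuousOn
      hf.continuousOn
    exact ⟨c, fun x hx => hc x hx⟩
  have hcomp : ∀ f : (Fin (n + 2) → ℝ) → ℝ, Measurable f → (∀ x, x ∉ B → f x = 0) →
      (∃ c, ∀ x ∈ B, |f x| ≤ c) → Integrable f volume := by
    intro f hf h0 ⟨c, hc⟩
    have h1 : B.indicator f = f := by
      funext x
      by_cases hx : x ∈ B
      · rw [indicator_of_mem hx]
      · rw [indicator_of_notMem hx, h0 x hx]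
    rw [← h1]
    refine (integrable_indicator_iff hBm).mpr ?_
    exact Measure.integrableOn_of_bounded hBf.ne hf.aestronglyMeasurable
      ((ae_restrict_iff' hBm).mpr (Eventually.of_forall fun x hx => hc x hx))
  obtain ⟨c1, hc1⟩ := hbdB (fun x => H 0 x - H 1 x) ((hH 0).continuous.sub (hH 1).continuous)
  obtain ⟨c2, hc2⟩ := hbdB χ hχ.continuous
  have hI1 : Integrable (fun x => Ψ (fun a => H a x) *
      Jd (Function.update H 0 χ) x) volume := by
    refine hcomp _ (hmΨ.mul (Jd_meas _)) (fun x hx => by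
      rw [hJ0 x hx, mul_zero]) ⟨c1 * C, fun x hx => ?_⟩
    rw [abs_mul]
    have := (abs_nonneg _).trans (hc1 x hx)
    exact mul_le_mul ((hΨb' _).trans (hc1 x hx)) (hJχ x) (abs_nonneg _) this
  have hI2 : Integrable (fun x => χ x * g (fun a => H a x) * Jd H x) volume := by
    refine hcomp _ ((hχ.continuous.measurable.mul hmg).mul (Jd_meas _)) (fun x hx => by
      rw [hχ0 x hx, zero_mul, zero_mul]) ⟨c2 * 1 * C, fun x hx => ?_⟩
    rw [abs_mul, abs_mul]
    have := (abs_nonneg _).trans (hc2 x hx)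
    exact mul_le_mul (mul_le_mul (hc2 x hx) (hg1 _) (abs_nonneg _) this) (hJH x) (abs_nonneg _)
      (by positivity)
  rw [integral_congr_ae hid, integral_add hI1 hI2] at hzero
  have h3 : ∫ x, χ x * g (fun a => H a x) * Jd H x =
      -∫ x, Ψ (fun a => H a x) * Jd (Function.update H 0 χ) x := by
    linarith
  rw [h3, abs_neg, ← integral_const_mul, ← integral_indicator hBm, ← Real.norm_eq_abs]
  refine norm_integral_le_of_norm_le ?_ (Eventually.of_forall fun x => ?_)
  · refine (integrable_indicator_iff hBm).mpr (Integrable.const_mul ?_ C)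
    exact Measure.integrableOn_of_bounded hBf.ne
      (((hmH 0).sub (hmH 1)).abs).aestronglyMeasurable
      ((ae_restrict_iff' hBm).mpr (Eventually.of_forall fun x hx => by
        rw [Real.norm_eq_abs, abs_abs]
        exact hc1 x hx))
  · rw [Real.norm_eq_abs]
    by_cases hx : x ∈ B
    · rw [indicator_of_mem hx, abs_mul, mul_comm]
      exact mul_le_mul (hJχ x) (hΨb' _) (abs_nonneg _) hC0
    · rw [indicator_of_notMem hx, hJ0 x hx, mul_zero, abs_zero]

end Pool.Agent.Helper34.QD
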