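import Mathlib

/-!
# Jacobian determinants of Lipschitz maps

The integral of the Jacobian determinant of a Lipschitz map with compact support vanishes.
-/

set_option autoImplicit false

open Set Filter Topology MeasureTheory Polynomial
open scoped NNReal ENNReal Matrix

noncomputable section

namespace Pool.Agent.Helper34.QD

section alg

variable {m : ℕ}

/-- the `m`-th difference of a polynomial of degree at most `m` -/
theorem fd (q : ℝ[X]) (hq : q.natDegree ≤ m) :
    ∑ k ∈ Finset.range (m + 1), ((-1 : ℤ) ^ (m - k) * (m.choose k : ℤ)) • q.eval (k : ℝ) =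
      q.coeff m * (m.factorial : ℝ) := by
  have h1 := fwdDiff_iter_eq_sum_shift (h := (1 : ℝ)) q.eval m 0
  have h2 : (fwdDiff (1 : ℝ))^[m] q.eval 0 = q.coeff m * (m.factorial : ℝ) := by
    rcases hq.lt_or_eq with h | h
    · rw [Polynomial.fwdDiff_iter_eq_zero_of_degree_lt h, Polynomial.coeff_eq_zero_of_natDegree_lt h]
      simp
    · rw [← h, Polynomial.fwdDiff_iter_degree_eq_factorial]
      simp only [Pi.smul_apply, Pi.natCast_apply, smul_eq_mul]
      rfl
  rw [h2] at h1
  rw [h1]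
  refine Finset.sum_congr rfl fun k _ => ?_
  simp

/-- the determinant of a matrix as a combination of values of `det (1 + s A)` -/
theorem detfd (A : Matrix (Fin m) (Fin m) ℝ) (h : ℝ) :
    ∑ k ∈ Finset.range (m + 1), ((-1 : ℤ) ^ (m - k) * (m.choose k : ℤ)) •
      (1 + ((k : ℝ) * h) • A).det = A.det * h ^ m * (m.factorial : ℝ) := by
  classical
  set p : ℝ[X] := (Matrix.det ((X : ℝ[X]) • A.map C + (1 : Matrix (Fin m) (Fin m) ℝ).map C)) with hp
  have hdeg : p.natDegree ≤ m := by
    have := Polynomial.natDegree_det_X_add_C_le A (1 : Matrix (Fin m) (Fin m) ℝ)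
    rwa [Fintype.card_fin] at this
  have hco : p.coeff m = A.det := by
    have := Polynomial.coeff_det_X_add_C_card A (1 : Matrix (Fin m) (Fin m) ℝ)
    rwa [Fintype.card_fin] at this
  have hev : ∀ s : ℝ, p.eval s = (1 + s • A).det := by
    intro s
    rw [hp, ← Polynomial.coe_evalRingHom, RingHom.map_det]
    congr 1
    ext i j
    simp [Matrix.one_apply, Polynomial.smul_eq_C_mul]
    ring_nf
    by_cases hij : i = j <;> simp [hij]
  have hq : (p.comp (C h * X)).natDegree ≤ m := by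
    refine Polynomial.natDegree_comp_le.trans ?_
    have : (C h * X : ℝ[X]).natDegree ≤ 1 :=
      (Polynomial.natDegree_C_mul_le h X).trans Polynomial.natDegree_X_le
    calc p.natDegree * (C h * X : ℝ[X]).natDegree ≤ m * 1 := Nat.mul_le_mul hdeg this
      _ = m := mul_one m
  have h1 := fd (p.comp (C h * X)) hq
  rw [Polynomial.comp_C_mul_X_coeff, hco] at h1
  rw [← h1]
  refine Finset.sum_congr rfl fun k _ => ?_
  rw [Polynomial.eval_comp, Polynomial.eval_mul, Polynomial.eval_C, Polynomial.eval_X, hev,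
    mul_comm h]

end alg

section pos

variable {E : Type} [NormedAddCommGroup E] [NormedSpace ℝ E] [FiniteDimensional ℝ E]

/-- determinants near the identity are positive -/
theorem det_pos (A : E →L[ℝ] E) (hA : ‖A‖ < 1) : 0 < (1 + A : E →L[ℝ] E).det := by
  haveI : CompleteSpace E := FiniteDimensional.complete ℝ E
  have hc : Continuous fun t : ℝ => (1 + t • A : E →L[ℝ] E).det :=
    ContinuousLinearMap.continuous_det.comp (continuous_const.add (continuous_id.smul continuous_const))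
  have hne : ∀ t ∈ Icc (0 : ℝ) 1, (1 + t • A : E →L[ℝ] E).det ≠ 0 := by
    intro t ht
    have h1 : ‖-(t • A)‖ < 1 := by
      rw [norm_neg, norm_smul, Real.norm_eq_abs, abs_of_nonneg ht.1]
      calc t * ‖A‖ ≤ 1 * ‖A‖ := mul_le_mul_of_nonneg_right ht.2 (norm_nonneg _)
        _ < 1 := by rw [one_mul]; exact hA
    have h2 : IsUnit (1 + t • A : E →L[ℝ] E) := by
      have := isUnit_one_sub_of_norm_lt_one h1
      rwa [sub_neg_eq_add] at this
    have h3 : IsUnit ((1 + t • A : E →L[ℝ] E) : E →ₗ[ℝ] E) := by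
      obtain ⟨u, hu⟩ := h2
      rw [← hu]
      exact ⟨⟨(u : E →L[ℝ] E), ((u⁻¹ : (E →L[ℝ] E)ˣ) : E →L[ℝ] E), by
        rw [← ContinuousLinearMap.toLinearMap_mul, Units.mul_inv]; rfl, by
        rw [← ContinuousLinearMap.toLinearMap_mul, Units.inv_mul]; rfl⟩, rfl⟩
    exact (h3.map LinearMap.det).ne_zero
  by_contra hneg
  push Not at hneg
  have h0 : (fun t : ℝ => (1 + t • A : E →L[ℝ] E).det) 0 = 1 := by
    show (1 + (0 : ℝ) • A : E →L[ℝ] E).det = 1
    rw [zero_smul, add_zero]
    exact LinearMap.det_id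
  have h1 : (fun t : ℝ => (1 + t • A : E →L[ℝ] E).det) 1 ≤ 0 := by
    show (1 + (1 : ℝ) • A : E →L[ℝ] E).det ≤ 0
    rw [one_smul]
    exact hneg
  have hiv := intermediate_value_Icc' (zero_le_one' ℝ) hc.continuousOn
  have hz : (0 : ℝ) ∈ Icc ((fun t : ℝ => (1 + t • A : E →L[ℝ] E).det) 1)
      ((fun t : ℝ => (1 + t • A : E →L[ℝ] E).det) 0) := by
    rw [h0]
    exact ⟨h1, zero_le_one⟩
  obtain ⟨t, ht, hte⟩ := hiv hz
  exact hne t ht hte

end pos

section main

variable {m : ℕ}

/-- change of variables for a perturbation of the identity -/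
theorem pert (G : (Fin m → ℝ) → (Fin m → ℝ)) (c : ℝ≥0) (hG : LipschitzWith c G) (R : ℝ)
    (hR : ∀ x, R < ‖x‖ → G x = 0) (s : ℝ) (hs : 0 ≤ s) (hsc : s * c < 1) :
    ∫ x in Metric.closedBall (0 : Fin m → ℝ) R, (1 + s • fderiv ℝ G x).det =
      (volume (Metric.closedBall (0 : Fin m → ℝ) R)).toReal := by
  set B := Metric.closedBall (0 : Fin m → ℝ) R with hB
  have hBm : MeasurableSet B := Metric.isClosed_closedBall.measurableSet
  obtain ⟨s', hs'⟩ : ∃ s' : ℝ≥0, (s' : ℝ) = s := ⟨⟨s, hs⟩, rfl⟩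
  set Φ : (Fin m → ℝ) → (Fin m → ℝ) := fun x => x + s • G x with hΦ
  have hap : ApproximatesLinearOn Φ ((ContinuousLinearEquiv.refl ℝ (Fin m → ℝ)) :
      (Fin m → ℝ) →L[ℝ] (Fin m → ℝ)) univ (s' * c) := by
    intro x _ y _
    have h1 : Φ x - Φ y - ((ContinuousLinearEquiv.refl ℝ (Fin m → ℝ)) :
        (Fin m → ℝ) →L[ℝ] (Fin m → ℝ)) (x - y) = s • (G x - G y) := by
      simp only [hΦ]
      rw [smul_sub]
      simp only [ContinuousLinearEquiv.coe_refl, ContinuousLinearMap.coe_id', id_eq]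
      abel
    rw [h1, norm_smul, Real.norm_eq_abs, abs_of_nonneg hs]
    have h2 := hG.dist_le_mul x y
    rw [dist_eq_norm, dist_eq_norm] at h2
    calc s * ‖G x - G y‖ ≤ s * (c * ‖x - y‖) := mul_le_mul_of_nonneg_left h2 hs
      _ = _ := by
        rw [NNReal.coe_mul, hs']
        ring
  have hcond : Subsingleton (Fin m → ℝ) ∨ (s' * c : ℝ≥0) <
      ‖((ContinuousLinearEquiv.refl ℝ (Fin m → ℝ)).symm :
        (Fin m → ℝ) →L[ℝ] (Fin m → ℝ))‖₊⁻¹ := by
    rcases subsingleton_or_nontrivial (Fin m → ℝ) with h | h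
    · exact Or.inl h
    · right
      have h1 : ‖((ContinuousLinearEquiv.refl ℝ (Fin m → ℝ)).symm :
          (Fin m → ℝ) →L[ℝ] (Fin m → ℝ))‖₊ = 1 := by
        have : ((ContinuousLinearEquiv.refl ℝ (Fin m → ℝ)).symm :
          (Fin m → ℝ) →L[ℝ] (Fin m → ℝ)) = ContinuousLinearMap.id ℝ _ := rfl
        rw [this]
        exact NNReal.eq ContinuousLinearMap.norm_id
      rw [h1, inv_one]
      rw [← NNReal.coe_lt_coe, NNReal.coe_mul, hs', NNReal.coe_one]
      exact hsc
  have hinj : Function.Injective Φ := by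
    have := hap.injOn (hcond.imp id fun h => h)
    exact fun x y h => this (mem_univ _) (mem_univ _) h
  have hsurj : Function.Surjective Φ := hap.surjective hcond
  have hfix : ∀ x, x ∉ B → Φ x = x := by
    intro x hx
    rw [hB, Metric.mem_closedBall, dist_zero_right, not_le] at hx
    simp only [hΦ]
    rw [hR x hx, smul_zero, add_zero]
  have hmap : ∀ x, x ∈ B → Φ x ∈ B := by
    intro x hx
    by_contra h
    have h1 := hfix _ h
    have h2 := hinj h1
    rw [h2] at h
    exact h hx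
  set T := {x | DifferentiableAt ℝ G x} with hT
  have hTm : MeasurableSet T := measurableSet_of_differentiableAt ℝ G
  have hTn : volume Tᶜ = 0 := by
    have := hG.ae_differentiableAt (μ := (volume : Measure (Fin m → ℝ)))
    rwa [ae_iff] at this
  have hLip : LipschitzWith (1 + s' * c) Φ := by
    refine LipschitzWith.id.add ?_
    refine LipschitzWith.of_dist_le_mul fun x y => ?_
    rw [dist_smul₀]
    have h2 := hG.dist_le_mul x y
    rw [Real.norm_eq_abs, abs_of_nonneg hs]
    calc s * dist (G x) (G y) ≤ s * (c * dist x y) := mul_le_mul_of_nonneg_left h2 hs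
      _ = _ := by
        rw [NNReal.coe_mul, hs']
        ring
  have hnull : volume (Φ '' Tᶜ) = 0 := by
    have h1 := hLip.hausdorffMeasure_image_le (d := (Fintype.card (Fin m) : ℝ)) (by positivity) Tᶜ
    rw [hausdorffMeasure_pi_real, hTn, mul_zero] at h1
    exact le_antisymm h1 bot_le
  have himg : volume (Φ '' (B ∩ T)) = volume B := by
    apply le_antisymm
    · apply measure_mono
      rintro _ ⟨x, hx, rfl⟩
      exact hmap x hx.1
    · have h1 : B ⊆ Φ '' (B ∩ T) ∪ Φ '' Tᶜ := by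
        intro y hy
        obtain ⟨x, hx⟩ := hsurj y
        have hxB : x ∈ B := by
          by_contra h
          rw [hfix x h] at hx
          rw [hx] at h
          exact h hy
        by_cases hxT : x ∈ T
        · exact Or.inl ⟨x, ⟨hxB, hxT⟩, hx⟩
        · exact Or.inr ⟨x, hxT, hx⟩
      calc volume B ≤ volume (Φ '' (B ∩ T) ∪ Φ '' Tᶜ) := measure_mono h1
        _ ≤ volume (Φ '' (B ∩ T)) + volume (Φ '' Tᶜ) := measure_union_le _ _
        _ = volume (Φ '' (B ∩ T)) := by rw [hnull, add_zero]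
  have hder : ∀ x ∈ B ∩ T, HasFDerivWithinAt Φ (1 + s • fderiv ℝ G x) (B ∩ T) x := by
    intro x hx
    have h1 : HasFDerivAt G (fderiv ℝ G x) x := (hx.2 : DifferentiableAt ℝ G x).hasFDerivAt
    exact ((hasFDerivAt_id x).add (h1.const_smul s)).hasFDerivWithinAt
  have hcv := lintegral_abs_det_fderiv_eq_addHaar_image volume (hBm.inter hTm) hder
    (hinj.injOn)
  rw [himg] at hcv
  have hnorm : ∀ x, ‖fderiv ℝ G x‖ ≤ c := fun x => norm_fderiv_le_of_lipschitz ℝ hG
  have hpos : ∀ x, 0 < (1 + s • fderiv ℝ G x : (Fin m → ℝ) →L[ℝ] (Fin m → ℝ)).det := by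
    intro x
    apply det_pos
    rw [norm_smul, Real.norm_eq_abs, abs_of_nonneg hs]
    exact lt_of_le_of_lt (mul_le_mul_of_nonneg_left (hnorm x) hs) hsc
  have hmeas : Measurable fun x => (1 + s • fderiv ℝ G x : (Fin m → ℝ) →L[ℝ] (Fin m → ℝ)).det := by
    have h1 : Measurable (fderiv ℝ G) := measurable_fderiv ℝ G
    have h2 : Continuous fun A : (Fin m → ℝ) →L[ℝ] (Fin m → ℝ) => (1 + s • A).det :=
      ContinuousLinearMap.continuous_det.comp (continuous_const.add (continuous_id.const_smul s))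
    exact h2.measurable.comp h1
  have hBT : (volume.restrict B) = volume.restrict (B ∩ T) := by
    apply Measure.restrict_congr_set
    have h1 : B \ (B ∩ T) ⊆ Tᶜ := fun x hx h => hx.2 ⟨hx.1, h⟩
    refine Filter.EventuallyLE.antisymm ?_ (Filter.Eventually.of_forall fun x hx => hx.1)
    rw [ae_le_set]
    exact measure_mono_null h1 hTn
  rw [hBT, integral_eq_lintegral_of_nonneg_ae (Filter.Eventually.of_forall fun x => (hpos x).le)
    hmeas.aestronglyMeasurable, ← hcv]
  congr 1
  refine lintegral_congr fun x => ?_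
  rw [abs_of_pos (hpos x)]

/-- the integral of the Jacobian determinant of a Lipschitz map with compact support vanishes -/
theorem int_det_zero (hm : 0 < m) (G : (Fin m → ℝ) → (Fin m → ℝ)) (c : ℝ≥0)
    (hG : LipschitzWith c G) (R : ℝ) (hR : ∀ x, R < ‖x‖ → G x = 0) :
    ∫ x, (fderiv ℝ G x).det = 0 := by
  set B := Metric.closedBall (0 : Fin m → ℝ) R with hB
  have hBm : MeasurableSet B := Metric.isClosed_closedBall.measurableSet
  have hBf : volume B < ⊤ := measure_closedBall_lt_top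
  -- reduction to the ball
  have hout : ∀ x, x ∉ B → (fderiv ℝ G x).det = 0 := by
    intro x hx
    have h1 : fderiv ℝ G x = 0 := by
      have h2 : G =ᶠ[𝓝 x] fun _ => 0 := by
        have h3 : Bᶜ ∈ 𝓝 x := Metric.isClosed_closedBall.isOpen_compl.mem_nhds hx
        filter_upwards [h3] with y hy
        apply hR
        rw [hB, mem_compl_iff, Metric.mem_closedBall, dist_zero_right, not_le] at hy
        exact hy
      rw [h2.fderiv_eq]
      simp
    rw [h1]
    haveI : Nonempty (Fin m) := ⟨⟨0, hm⟩⟩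
    have h4 : LinearMap.det (0 : (Fin m → ℝ) →ₗ[ℝ] (Fin m → ℝ)) = 0 := by
      rw [← LinearMap.det_toMatrix', map_zero, Matrix.det_zero]
    exact h4
  have hred : ∫ x, (fderiv ℝ G x).det = ∫ x in B, (fderiv ℝ G x).det := by
    rw [← integral_indicator hBm]
    refine integral_congr_ae (Eventually.of_forall fun x => ?_)
    by_cases hx : x ∈ B
    · rw [indicator_of_mem hx]
    · rw [indicator_of_notMem hx]
      exact hout x hx
  -- the step
  obtain ⟨h, hh, hhc⟩ : ∃ h : ℝ, 0 < h ∧ m * h * c < 1 := by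
    refine ⟨1 / (m * c + 1), by positivity, ?_⟩
    rw [mul_one_div, div_mul_eq_mul_div, div_lt_one (by positivity)]
    linarith
  have hmat : ∀ (A : (Fin m → ℝ) →L[ℝ] (Fin m → ℝ)) (s : ℝ), (1 + s • A).det =
      (1 + s • LinearMap.toMatrix' (A : (Fin m → ℝ) →ₗ[ℝ] (Fin m → ℝ))).det := by
    intro A s
    have h1 : (1 + s • LinearMap.toMatrix' (A : (Fin m → ℝ) →ₗ[ℝ] (Fin m → ℝ))) =
        LinearMap.toMatrix' ((1 + s • A : (Fin m → ℝ) →L[ℝ] (Fin m → ℝ)) :
          (Fin m → ℝ) →ₗ[ℝ] (Fin m → ℝ)) := by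
      have h2 : ((1 + s • A : (Fin m → ℝ) →L[ℝ] (Fin m → ℝ)) : (Fin m → ℝ) →ₗ[ℝ] (Fin m → ℝ)) =
          LinearMap.id + s • (A : (Fin m → ℝ) →ₗ[ℝ] (Fin m → ℝ)) := rfl
      rw [h2, map_add, map_smul, LinearMap.toMatrix'_id]
    rw [h1, LinearMap.det_toMatrix']
  have hmat0 : ∀ (A : (Fin m → ℝ) →L[ℝ] (Fin m → ℝ)), A.det =
      (LinearMap.toMatrix' (A : (Fin m → ℝ) →ₗ[ℝ] (Fin m → ℝ))).det := by
    intro A
    rw [LinearMap.det_toMatrix']
  have hfd : ∀ x, ∑ k ∈ Finset.range (m + 1), ((-1 : ℤ) ^ (m - k) * (m.choose k : ℤ)) •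
      (1 + ((k : ℝ) * h) • fderiv ℝ G x).det = (fderiv ℝ G x).det * (h ^ m * (m.factorial : ℝ)) := by
    intro x
    have h1 := detfd (LinearMap.toMatrix' (fderiv ℝ G x : (Fin m → ℝ) →ₗ[ℝ] (Fin m → ℝ))) h
    rw [← hmat0] at h1
    rw [← mul_assoc, ← h1]
    refine Finset.sum_congr rfl fun k _ => ?_
    rw [hmat]
  have hint : ∀ k ∈ Finset.range (m + 1), IntegrableOn
      (fun x => (1 + ((k : ℝ) * h) • fderiv ℝ G x).det) B volume := by
    intro k _
    have hcd : Continuous fun A : (Fin m → ℝ) →L[ℝ] (Fin m → ℝ) => (1 + ((k : ℝ) * h) • A).det :=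
      ContinuousLinearMap.continuous_det.comp
        (continuous_const.add (continuous_id.const_smul ((k : ℝ) * h)))
    have hms : Measurable fun x => (1 + ((k : ℝ) * h) • fderiv ℝ G x).det :=
      hcd.measurable.comp (measurable_fderiv ℝ G)
    obtain ⟨K, hK⟩ := (isCompact_closedBall (0 : (Fin m → ℝ) →L[ℝ] (Fin m → ℝ)) c).exists_bound_of_continuousOn
      hcd.continuousOn
    haveI : IsFiniteMeasure (volume.restrict B) := ⟨by rw [Measure.restrict_apply_univ]; exact hBf⟩
    refine Integrable.of_bound hms.aestronglyMeasurable K (Eventually.of_forall fun x => ?_)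
    apply hK
    rw [Metric.mem_closedBall, dist_zero_right]
    exact norm_fderiv_le_of_lipschitz ℝ hG
  have hint2 : ∀ k ∈ Finset.range (m + 1), Integrable
      (fun x => ((-1 : ℤ) ^ (m - k) * (m.choose k : ℤ)) •
        (1 + ((k : ℝ) * h) • fderiv ℝ G x).det) (volume.restrict B) := by
    intro k hk
    have h1 : (fun x => ((-1 : ℤ) ^ (m - k) * (m.choose k : ℤ)) •
        (1 + ((k : ℝ) * h) • fderiv ℝ G x).det) = fun x =>
        ((((-1 : ℤ) ^ (m - k) * (m.choose k : ℤ) : ℤ)) : ℝ) *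
          (1 + ((k : ℝ) * h) • fderiv ℝ G x).det := by
      funext x
      rw [zsmul_eq_mul]
    rw [h1]
    exact (hint k hk).const_mul _
  have hsum : ∫ x in B, (fderiv ℝ G x).det * (h ^ m * (m.factorial : ℝ)) = 0 := by
    rw [← integral_congr_ae (Eventually.of_forall hfd), integral_finsetSum _ hint2]
    have h2 : ∀ k ∈ Finset.range (m + 1), ∫ x in B, ((-1 : ℤ) ^ (m - k) * (m.choose k : ℤ)) •
        (1 + ((k : ℝ) * h) • fderiv ℝ G x).det =
        ((-1 : ℤ) ^ (m - k) * (m.choose k : ℤ)) • (volume B).toReal := by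
      intro k hk
      rw [zsmul_eq_mul]
      simp only [zsmul_eq_mul]
      rw [integral_const_mul, pert G c hG R hR ((k : ℝ) * h) (by positivity) ?_]
      have hkm : (k : ℝ) ≤ m := by
        have := Finset.mem_range.mp hk
        exact_mod_cast Nat.lt_succ_iff.mp this
      calc (k : ℝ) * h * c ≤ m * h * c := by gcongr
        _ < 1 := hhc
    rw [Finset.sum_congr rfl h2]
    have h3 := detfd (0 : Matrix (Fin m) (Fin m) ℝ) h
    haveI : Nonempty (Fin m) := ⟨⟨0, hm⟩⟩
    simp only [smul_zero, add_zero, Matrix.det_one, Matrix.det_zero, zero_mul] at h3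
    have h4 : ∀ k : ℕ, ((-1 : ℤ) ^ (m - k) * (m.choose k : ℤ)) • (volume B).toReal =
        (((-1 : ℤ) ^ (m - k) * (m.choose k : ℤ)) • (1 : ℝ)) * (volume B).toReal := by
      intro k
      rw [zsmul_eq_mul, zsmul_eq_mul, mul_one]
    rw [Finset.sum_congr rfl fun k _ => h4 k, ← Finset.sum_mul, h3, zero_mul]
  rw [hred]
  rw [integral_mul_const] at hsum
  rcases mul_eq_zero.mp hsum with h1 | h1
  · exact h1
  · exact absurd h1 (by positivity)

end main

end Pool.Agent.Helper34.QD
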