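import Pool.Agent.Helper34.QD.Lv

/-!
# The masses of the eigenfunctions as logarithmic derivatives
-/

set_option autoImplicit false

open Set Filter Topology MeasureTheory
open scoped NNReal ENNReal Matrix Real
open Pool.Agent.Y262.QE Pool.Agent.Y264.QR Pool.Agent.Y319.QR

noncomputable section

namespace Pool.Agent.Helper34.QD

theorem kx {M : Type} [MetricSpace M] [CompactSpace M] [MeasurableSpace M] [BorelSpace M]
    (μ : Measure M) [IsFiniteMeasure μ] [MeasurableSpace C(M, ℝ)] [BorelSpace C(M, ℝ)] (H : Type)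
    [NormedAddCommGroup H] [InnerProductSpace ℝ H]
    (i : H →L[ℝ] Lp ℝ 2 μ) (a : H →L[ℝ] H →L[ℝ] ℝ) (b : C(M, ℝ) → H →L[ℝ] H →L[ℝ] ℝ)
    (hSf : Sf μ i a) (hB : IsB μ i b) (hW : Wl μ a b) (e : C(M, ℝ) → ℕ → H)
    (E : C(M, ℝ) → ℕ → ℝ) (hEg : ∀ φ, Eg a (b φ) (e φ) (E φ)) (P : Measure C(M, ℝ))
    [IsProbabilityMeasure P] (h : C(M, ℝ)) (hac : ∀ t : ℝ, P.map (fun φ => φ + t • h) ≪ P)
    (j : ℕ) (hj : ∀ φ, 0 < Ev a (b φ) j) :
    (fun φ => kap μ i h φ (e φ j)) =ᵐ[P] fun φ => XX (fun φ => Ev a (b φ) j) h φ := by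
  obtain ⟨b', hB', hFm, hpos, hcmp, hk⟩ := tFm M μ H i a hSf
  have hbb : b' = b := b_unique hB' hB
  subst hbb
  obtain ⟨k, hks, hkk, hkt⟩ := hk h
  obtain ⟨-, hmon, -, hcont, hdich⟩ := tLip M μ H a b' hFm hcmp
  obtain ⟨hcm1, hcm2, hcm3, hcm4⟩ := Pool.Agent.Y689.QR.cm M μ
  have hFlw := hcm4 P h hac
  have hkap : ∀ φ j, |kap μ i h φ (e φ j)| ≤ ‖h‖ := by
    intro φ j
    have h1 := (hkk φ (e φ j)).2
    rw [(hkk φ (e φ j)).1, (hEg φ).orth, if_pos rfl, mul_one] at h1
    exact h1
  have hline : ∀ φ : C(M, ℝ), ∀ᵐ t : ℝ, ∀ j, HasDerivAt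
      (fun τ : ℝ => Ev a (b' ((φ + t • h) + τ • h)) j)
      (-(kap μ i h (φ + t • h) (e (φ + t • h) j) * Ev a (b' (φ + t • h)) j)) 0 := by
    intro φ
    have h1 := (tOneP M μ H i a b' hSf hB hW φ h (fun t => e (φ + t • h))
      (fun t => E (φ + t • h)) (fun t => hEg (φ + t • h))).1
    filter_upwards [h1] with t ht j
    exact shift_der (G := fun φ => Ev a (b' φ) j) (ht j)
  have hnull : ∀ᵐ φ ∂P, ∀ j, DifferentiableAt ℝ (fun t : ℝ => Ev a (b' (φ + t • h)) j) 0 := by
    rw [ae_all_iff]
    intro j
    have h1 : MeasurableSet {φ : C(M, ℝ) |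
        ¬ DifferentiableAt ℝ (fun t : ℝ => Ev a (b' (φ + t • h)) j) 0} :=
      (hcm1 (fun φ => Ev a (b' φ) j) (hcont j) h).2.compl
    have h2 := Pool.Agent.Y941.QR.qn C(M, ℝ) P (fun (t : ℝ) φ => φ + t • h) hFlw _ h1 (by
      intro φ
      filter_upwards [hline φ] with t ht
      exact fun hn => hn (ht j).differentiableAt)
    exact h2
  filter_upwards [hnull] with φ hφ
  have h1 := point tDer0 a b' hFm hmon h (k φ) ‖h‖ φ (hks φ) (fun v => (hkk φ v).2)
    (fun v τ => hkt φ v τ) (e φ) (E φ) (hEg φ) hφ j
  rw [(hkk φ (e φ j)).1] at h1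
  exact (XX_eq (G := fun φ => Ev a (b' φ) j) h1 (hj φ) (hkap φ j)).symm

/-- a multilinear density argument -/
theorem mdense {X : Type} [NormedAddCommGroup X] [NormedSpace ℝ X] {N : ℕ}
    (Λ : ℕ → (Fin N → X) → ℝ)
    (hadd : ∀ k f b x y, Λ k (Function.update f b (x + y)) =
      Λ k (Function.update f b x) + Λ k (Function.update f b y))
    (hsmul : ∀ k f b (c : ℝ) x, Λ k (Function.update f b (c • x)) =
      c * Λ k (Function.update f b x))
    (C : ℝ) (hbd : ∀ k f, |Λ k f| ≤ C * ∏ b, ‖f b‖) (S : Set X)
    (hS : Dense (Submodule.span ℝ S : Set X))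
    (hconv : ∀ f, (∀ b, f b ∈ S) → Tendsto (fun k => Λ k f) atTop (𝓝 0)) (f : Fin N → X) :
    Tendsto (fun k => Λ k f) atTop (𝓝 0) := by
  have key : ∀ s : Finset (Fin N), ∀ f, (∀ b, b ∉ s → f b ∈ S) →
      Tendsto (fun k => Λ k f) atTop (𝓝 0) := by
    intro s
    induction s using Finset.induction_on with
    | empty => exact fun f hf => hconv f fun b => hf b (Finset.notMem_empty b)
    | insert b s hb ih =>
      intro f hf
      let W : Submodule ℝ X :=
        { carrier := {x | Tendsto (fun k => Λ k (Function.update f b x)) atTop (𝓝 0)}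
          zero_mem' := by
            change Tendsto (fun k => Λ k (Function.update f b 0)) atTop (𝓝 0)
            have : ∀ k, Λ k (Function.update f b 0) = 0 := fun k => by
              have := hsmul k f b 0 0
              rwa [zero_smul, zero_mul] at this
            simp only [this]
            exact tendsto_const_nhds
          add_mem' := fun {x y} hx hy => by
            change Tendsto (fun k => Λ k (Function.update f b (x + y))) atTop (𝓝 0)
            simp only [hadd]
            have := Tendsto.add hx hy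
            rwa [add_zero] at this
          smul_mem' := fun c x hx => by
            change Tendsto (fun k => Λ k (Function.update f b (c • x))) atTop (𝓝 0)
            simp only [hsmul]
            have := Tendsto.const_mul c hx
            rwa [mul_zero] at this }
      have hWS : Submodule.span ℝ S ≤ W := by
        rw [Submodule.span_le]
        intro x hx
        refine ih _ fun c hc => ?_
        by_cases hcb : c = b
        · subst hcb
          rw [Function.update_self]
          exact hx
        · rw [Function.update_of_ne hcb]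
          exact hf c fun h => (Finset.mem_insert.mp h).elim hcb hc
      set C' : ℝ := |C| * ∏ c ∈ Finset.univ.erase b, ‖f c‖ with hC'
      have hC'0 : 0 ≤ C' := mul_nonneg (abs_nonneg _) (Finset.prod_nonneg fun c _ => norm_nonneg _)
      have hbd' : ∀ k x, |Λ k (Function.update f b x)| ≤ C' * ‖x‖ := by
        intro k x
        refine (hbd k _).trans ?_
        rw [← Finset.mul_prod_erase Finset.univ _ (Finset.mem_univ b), Function.update_self]
        have h1 : ∏ c ∈ Finset.univ.erase b, ‖Function.update f b x c‖ =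
            ∏ c ∈ Finset.univ.erase b, ‖f c‖ := by
          refine Finset.prod_congr rfl fun c hc => ?_
          rw [Function.update_of_ne (Finset.ne_of_mem_erase hc)]
        rw [h1, hC']
        have h2 : 0 ≤ ‖x‖ * ∏ c ∈ Finset.univ.erase b, ‖f c‖ :=
          mul_nonneg (norm_nonneg _) (Finset.prod_nonneg fun c _ => norm_nonneg _)
        calc C * (‖x‖ * ∏ c ∈ Finset.univ.erase b, ‖f c‖)
            ≤ |C| * (‖x‖ * ∏ c ∈ Finset.univ.erase b, ‖f c‖) :=
              mul_le_mul_of_nonneg_right (le_abs_self C) h2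
          _ = _ := by ring
      have hT0 : Tendsto (fun k => Λ k (Function.update f b (f b))) atTop (𝓝 0) := by
        rw [Metric.tendsto_atTop]
        intro ε hε
        obtain ⟨y, hy, hyS⟩ := Metric.dense_iff.mp hS (f b) (ε / (2 * (C' + 1))) (by positivity)
        rw [Metric.mem_ball, dist_comm, dist_eq_norm] at hy
        obtain ⟨k0, hk0⟩ := Metric.tendsto_atTop.mp (show Tendsto
          (fun k => Λ k (Function.update f b y)) atTop (𝓝 0) from hWS hyS) (ε / 2) (by positivity)
        refine ⟨k0, fun k hk => ?_⟩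
        have h1 := hk0 k hk
        rw [dist_zero_right, Real.norm_eq_abs] at h1 ⊢
        have h2 : Λ k (Function.update f b (f b)) =
            Λ k (Function.update f b (f b - y)) + Λ k (Function.update f b y) := by
          rw [← hadd, sub_add_cancel]
        have h3 := hbd' k (f b - y)
        have h4 : C' * ‖f b - y‖ ≤ ε / 2 := by
          calc C' * ‖f b - y‖ ≤ (C' + 1) * (ε / (2 * (C' + 1))) :=
                mul_le_mul (by linarith) hy.le (norm_nonneg _) (by positivity)
            _ = ε / 2 := by field_simp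
        rw [h2]
        calc |Λ k (Function.update f b (f b - y)) + Λ k (Function.update f b y)|
            ≤ |Λ k (Function.update f b (f b - y))| + |Λ k (Function.update f b y)| :=
              abs_add_le _ _
          _ < ε := by linarith
      rwa [Function.update_eq_self] at hT0
  exact key Finset.univ f fun b hb => absurd (Finset.mem_univ b) hb

end Pool.Agent.Helper34.QD
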