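import Pool.Agent.Helper34.QD.Sl

/-!
# Convergence in the mean for directions of quasi-invariance
-/

set_option autoImplicit false

open Set Filter Topology MeasureTheory
open scoped NNReal ENNReal Matrix Real
open Pool.Agent.Y262.QE Pool.Agent.Y264.QR Pool.Agent.Y319.QR

noncomputable section

namespace Pool.Agent.Helper34.QD

variable {M : Type} [MetricSpace M] [CompactSpace M] [MeasurableSpace M] [BorelSpace M]
  {μ : Measure M} [IsFiniteMeasure μ] {n : ℕ}

/-- bound of a determinant by the bounds of the columns -/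
theorem det_col {m : ℕ} (A : Matrix (Fin m) (Fin m) ℝ) (c : Fin m → ℝ)
    (h : ∀ a b, |A a b| ≤ c b) : |A.det| ≤ m.factorial * ∏ b, c b := by
  rw [Matrix.det_apply']
  refine (Finset.abs_sum_le_sum_abs _ _).trans ?_
  have h1 : ∀ σ ∈ (Finset.univ : Finset (Equiv.Perm (Fin m))),
      |((Equiv.Perm.sign σ : ℤ) : ℝ) * ∏ i, A (σ i) i| ≤ ∏ b, c b := by
    intro σ _
    rw [abs_mul, Finset.abs_prod]
    have h2 : |((Equiv.Perm.sign σ : ℤ) : ℝ)| = 1 := by
      rcases Int.units_eq_one_or (Equiv.Perm.sign σ) with h3 | h3 <;> rw [h3] <;> simp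
    rw [h2, one_mul]
    exact Finset.prod_le_prod (fun i _ => abs_nonneg _) fun i _ => h (σ i) i
  refine (Finset.sum_le_sum h1).trans ?_
  rw [Finset.sum_const, Finset.card_univ, Fintype.card_perm, Fintype.card_fin, nsmul_eq_mul]

theorem det_meas {X : Type} [MeasurableSpace X] {m : ℕ} (A : X → Matrix (Fin m) (Fin m) ℝ)
    (h : ∀ a b, Measurable fun x => A x a b) : Measurable fun x => (A x).det := by
  have h1 : (fun x => (A x).det) = fun x => ∑ σ : Equiv.Perm (Fin m),
      ((Equiv.Perm.sign σ : ℤ) : ℝ) * ∏ i, A x (σ i) i := by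
    funext x
    rw [Matrix.det_apply']
  rw [h1]
  exact Finset.measurable_sum _ fun σ _ =>
    (Finset.measurable_prod _ fun i _ => h (σ i) i).const_mul _

theorem Ls.cont {G : C(M, ℝ) → ℝ} (h : Ls G) : Continuous G := by
  have h1 : LipschitzWith 1 fun φ => Real.log (G φ) := by
    refine LipschitzWith.of_dist_le_mul fun φ ψ => ?_
    rw [Real.dist_eq, NNReal.coe_one, one_mul, dist_eq_norm]
    exact h.abs_le φ ψ
  have h2 : G = fun φ => Real.exp (Real.log (G φ)) := by
    funext φ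
    rw [Real.exp_log (h.pos φ)]
  rw [h2]
  exact Real.continuous_exp.comp h1.continuous

variable [MeasurableSpace C(M, ℝ)] [BorelSpace C(M, ℝ)]

theorem XX_meas (hCM : StCM) {G : C(M, ℝ) → ℝ} (hG : Continuous G) (h : C(M, ℝ))
    (μ : Measure M) [IsFiniteMeasure μ] : Measurable fun φ => XX G h φ := by
  obtain ⟨hcm1, -⟩ := hCM M μ
  have h1 := (hcm1 G hG h).1
  exact measurable_const.max (measurable_const.min (h1.neg.div hG.measurable))

theorem mat_meas (hCM : StCM) (G : Fin (n + 1) → C(M, ℝ) → ℝ) (hG : ∀ a, Ls (G a))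
    (f : Fin (n + 2) → C(M, ℝ)) (a b : Fin (n + 2)) : Measurable fun φ => mat μ G f φ a b := by
  refine Fin.cases ?_ (fun a => ?_) a
  · exact ((hCM M μ).2.1 (f b)).measurable
  · exact XX_meas hCM (hG a).cont (f b) μ

theorem mat_bd (hCM : StCM) (G : Fin (n + 1) → C(M, ℝ) → ℝ)
    (f : Fin (n + 2) → C(M, ℝ)) (φ : C(M, ℝ)) (a b : Fin (n + 2)) : |mat μ G f φ a b| ≤ ‖f b‖ := by
  refine Fin.cases ?_ (fun a => ?_) a
  · exact (hCM M μ).2.2.1 (f b) φ
  · exact XX_bd (G a) (f b) φ

/-- the translations as a measurable action -/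
theorem tr_meas {N : ℕ} (f : Fin N → C(M, ℝ)) :
    Measurable fun p : (Fin N → ℝ) × C(M, ℝ) => tr f p.1 p.2 := by
  have h : Continuous fun p : (Fin N → ℝ) × C(M, ℝ) => tr f p.1 p.2 := by
    unfold tr
    refine continuous_snd.add (continuous_finsetSum _ fun b _ => ?_)
    exact ((continuous_apply b).comp continuous_fst).smul continuous_const
  exact h.measurable

theorem tr_ac (P : Measure C(M, ℝ)) {N : ℕ} (f : Fin N → C(M, ℝ))
    (hf : ∀ b, ∀ t : ℝ, P.map (fun φ => φ + t • f b) ≪ P) (t : Fin N → ℝ) :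
    P ≪ P.map (tr f t) := by
  have hm : ∀ g : C(M, ℝ), Measurable fun φ : C(M, ℝ) => φ + g := fun g =>
    (continuous_id.add continuous_const).measurable
  have h1 : ∀ (t : Fin N → ℝ) (s : Finset (Fin N)),
      P.map (fun φ => φ + ∑ b ∈ s, t b • f b) ≪ P := by
    intro t s
    induction s using Finset.induction_on with
    | empty =>
      simp only [Finset.sum_empty, add_zero]
      have : P.map (fun φ : C(M, ℝ) => φ) = P := Measure.map_id
      rw [this]
    | insert b s hb ih =>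
      have h2 : (fun φ : C(M, ℝ) => φ + ∑ c ∈ insert b s, t c • f c) =
          (fun φ => φ + ∑ c ∈ s, t c • f c) ∘ fun φ => φ + t b • f b := by
        funext φ
        rw [Function.comp_apply, Finset.sum_insert hb, add_assoc]
      rw [h2, ← Measure.map_map (hm _) (hm _)]
      exact ((hf b (t b)).map (hm _)).trans ih
  have h2 : (P.map (tr f (-t))).map (tr f t) = P := by
    have hmt : ∀ t, Measurable (tr f t) := fun t =>
      (tr_meas f).comp (measurable_prodMk_left (x := t))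
    rw [Measure.map_map (hmt t) (hmt (-t))]
    have : tr f t ∘ tr f (-t) = id := by
      funext φ
      rw [Function.comp_apply]
      unfold tr
      rw [add_assoc, ← Finset.sum_add_distrib]
      simp
    rw [this, Measure.map_id]
  have hmt : Measurable (tr f t) := (tr_meas f).comp (measurable_prodMk_left (x := t))
  have h3 : P.map (tr f (-t)) ≪ P := h1 (-t) Finset.univ
  have h4 := h3.map hmt
  rwa [h2] at h4

/-- the logarithms -/
def hv (μ : Measure M) (G : Fin (n + 1) → C(M, ℝ) → ℝ) (c : Fin (n + 1) → ℝ) (φ : C(M, ℝ)) :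
    Fin (n + 2) → ℝ :=
  Fin.cons (Real.log (4 * π) - Real.log (∫ x, Real.exp (φ x) ∂μ)) fun a => Real.log (G a φ) - c a

theorem hv_meas (hpos : ∀ φ : C(M, ℝ), 0 < ∫ x, Real.exp (φ x) ∂μ)
    (G : Fin (n + 1) → C(M, ℝ) → ℝ) (hG : ∀ a, Ls (G a)) (c : Fin (n + 1) → ℝ) :
    Measurable (hv μ G c) := by
  refine measurable_pi_lambda _ fun a => ?_
  refine Fin.cases ?_ (fun a => ?_) a
  · exact (Real.measurable_log.comp (Ls_area hpos).cont.measurable).const_sub _
  · exact (Real.measurable_log.comp (hG a).cont.measurable).sub_const _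

/-- convergence in the mean for the clipped derivatives -/
theorem lvl (hCM : StCM) (hpos : ∀ φ : C(M, ℝ), 0 < ∫ x, Real.exp (φ x) ∂μ)
    (G : ℕ → Fin (n + 1) → C(M, ℝ) → ℝ) (hG : ∀ k a, Ls (G k a)) (c : ℕ → Fin (n + 1) → ℝ)
    (hlim : ∀ φ : C(M, ℝ), Tendsto (fun k => (Real.log (4 * π) -
      Real.log (∫ x, Real.exp (φ x) ∂μ)) - (Real.log (G k 0 φ) - c k 0)) atTop (𝓝 0))
    (P : Measure C(M, ℝ)) [IsProbabilityMeasure P] (f : Fin (n + 2) → C(M, ℝ))
    (hf : ∀ b, ∀ t : ℝ, P.map (fun φ => φ + t • f b) ≪ P)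
    (g : ℕ → (Fin (n + 2) → ℝ) → ℝ) (hg : ∀ k, ContDiff ℝ 1 (g k)) (hg1 : ∀ k y, |g k y| ≤ 1)
    (χ : C(M, ℝ) → ℝ) (hχ : Integrable χ P) :
    Tendsto (fun k => ∫ φ, χ φ * (g k (hv μ (G k) (c k) φ) *
      (mat μ (G k) f φ).det) ∂P) atTop (𝓝 0) := by
  have hgm : ∀ k, Measurable fun φ => g k (hv μ (G k) (c k) φ) := fun k =>
    (hg k).continuous.measurable.comp (hv_meas hpos (G k) (hG k) (c k))
  refine qw P (tr_meas f) (tr_ac P f hf) (fun k φ => g k (hv μ (G k) (c k) φ) *
      (mat μ (G k) f φ).det) ((n + 2).factorial * ∏ b, ‖f b‖)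
    (fun k => (hgm k).mul (det_meas _ (mat_meas hCM (G k) (hG k) f))) (fun k φ => ?_)
    (fun o χ' hχ' => ?_) χ hχ
  · rw [abs_mul]
    calc _ ≤ 1 * ((n + 2).factorial * ∏ b, ‖f b‖) :=
          mul_le_mul (hg1 k _) (det_col _ _ (mat_bd hCM (G k) f φ)) (abs_nonneg _) zero_le_one
      _ = _ := one_mul _
  · have h1 := slice (fun k => Hs μ (G k) (c k) f o) (∑ b, ‖f b‖₊)
      (fun k a => Hs_lip hpos (G k) (hG k) (c k) f o a) (fun t => hlim (tr f t o)) g hg hg1 χ' hχ'
    have h2 := h1.const_mul ((-1 : ℝ) ^ (n + 2))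
    rw [mul_zero] at h2
    refine h2.congr fun k => ?_
    rw [← integral_const_mul]
    refine integral_congr_ae ?_
    filter_upwards [Hs_Jd hpos (G k) (hG k) (c k) f o] with t ht
    rw [ht]
    have h3 : ((-1 : ℝ) ^ (n + 2)) * (-1) ^ (n + 2) = 1 := by
      rw [← mul_pow]
      simp
    have h4 : (fun a : Fin (n + 2) => Hs μ (G k) (c k) f o a t) =
        hv μ (G k) (c k) (tr f t o) := by
      funext a
      refine Fin.cases rfl (fun a => rfl) a
    rw [h4]
    calc (-1 : ℝ) ^ (n + 2) * (χ' t * (g k (hv μ (G k) (c k) (tr f t o)) *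
          ((-1) ^ (n + 2) * (mat μ (G k) f (tr f t o)).det)))
        = (((-1 : ℝ) ^ (n + 2)) * (-1) ^ (n + 2)) * (χ' t *
          (g k (hv μ (G k) (c k) (tr f t o)) *
            (mat μ (G k) f (tr f t o)).det)) := by ring
      _ = _ := by rw [h3, one_mul]

end Pool.Agent.Helper34.QD
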