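import Pool.Agent.Helper34.QD.Kx
import Pool.Agent.Helper34.QD.Ap

/-!
# The abstract theorem on determinants
-/

set_option autoImplicit false

open Set Filter Topology MeasureTheory
open scoped NNReal ENNReal Matrix Real
open Pool.Agent.Y262.QE Pool.Agent.Y264.QR Pool.Agent.Y319.QR Pool.Agent.Y378.QR

noncomputable section

namespace Pool.Agent.Helper34.QD

section defs

variable {M : Type} [MetricSpace M] [CompactSpace M] [MeasurableSpace M] {H : Type}
  [NormedAddCommGroup H] [InnerProductSpace ℝ H] {n : ℕ}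

/-- the matrix of the mean values and of the masses of eigenfunctions -/
def kmat (μ : Measure M) (i : H →L[ℝ] Lp ℝ 2 μ) (J : Fin (n + 1) → ℕ) (e : C(M, ℝ) → ℕ → H)
    (f : Fin (n + 2) → C(M, ℝ)) (φ : C(M, ℝ)) : Matrix (Fin (n + 2)) (Fin (n + 2)) ℝ :=
  Matrix.of (Fin.cons (fun b => avg μ (f b) φ) fun a b => kap μ i (f b) φ (e φ (J a)))

end defs

variable {M : Type} [MetricSpace M] [CompactSpace M] [MeasurableSpace M] [BorelSpace M]
    {μ : Measure M} [IsFiniteMeasure μ] [MeasurableSpace C(M, ℝ)] [BorelSpace C(M, ℝ)] {H : Type}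
    [NormedAddCommGroup H] [InnerProductSpace ℝ H]
    {i : H →L[ℝ] Lp ℝ 2 μ} {a : H →L[ℝ] H →L[ℝ] ℝ} {b : C(M, ℝ) → H →L[ℝ] H →L[ℝ] ℝ}
    {e : C(M, ℝ) → ℕ → H} {E : C(M, ℝ) → ℕ → ℝ} {n : ℕ}

theorem kmat_add (J : Fin (n + 1) → ℕ) (f : Fin (n + 2) → C(M, ℝ)) (c : Fin (n + 2))
    (x y φ : C(M, ℝ)) :
    (kmat μ i J e (Function.update f c (x + y)) φ).det =
      (kmat μ i J e (Function.update f c x) φ).det +
      (kmat μ i J e (Function.update f c y) φ).det := by
  have h1 : ∀ z : C(M, ℝ), kmat μ i J e (Function.update f c z) φ =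
      (kmat μ i J e f φ).updateCol c
        (Fin.cons (avg μ z φ) fun a => kap μ i z φ (e φ (J a))) := by
    intro z
    ext p q
    rw [Matrix.updateCol_apply]
    by_cases hq : q = c
    · subst hq
      rw [if_pos rfl]
      refine Fin.cases ?_ (fun p => ?_) p
      · show avg μ (Function.update f q z q) φ = avg μ z φ
        rw [Function.update_self]
      · show kap μ i (Function.update f q z q) φ _ = kap μ i z φ _
        rw [Function.update_self]
    · rw [if_neg hq]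
      refine Fin.cases ?_ (fun p => ?_) p
      · show avg μ (Function.update f c z q) φ = avg μ (f q) φ
        rw [Function.update_of_ne hq]
      · show kap μ i (Function.update f c z q) φ _ = kap μ i (f q) φ _
        rw [Function.update_of_ne hq]
  rw [h1, h1, h1, ← Matrix.det_updateCol_add]
  congr 2
  funext p
  refine Fin.cases ?_ (fun p => ?_) p
  · exact avg_add x y φ
  · exact kap_add x y φ _

theorem kmat_smul (J : Fin (n + 1) → ℕ) (f : Fin (n + 2) → C(M, ℝ)) (c : Fin (n + 2)) (r : ℝ)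
    (x φ : C(M, ℝ)) :
    (kmat μ i J e (Function.update f c (r • x)) φ).det =
      r * (kmat μ i J e (Function.update f c x) φ).det := by
  have h1 : ∀ z : C(M, ℝ), kmat μ i J e (Function.update f c z) φ =
      (kmat μ i J e f φ).updateCol c
        (Fin.cons (avg μ z φ) fun a => kap μ i z φ (e φ (J a))) := by
    intro z
    ext p q
    rw [Matrix.updateCol_apply]
    by_cases hq : q = c
    · subst hq
      rw [if_pos rfl]
      refine Fin.cases ?_ (fun p => ?_) p
      · show avg μ (Function.update f q z q) φ = avg μ z φ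
        rw [Function.update_self]
      · show kap μ i (Function.update f q z q) φ _ = kap μ i z φ _
        rw [Function.update_self]
    · rw [if_neg hq]
      refine Fin.cases ?_ (fun p => ?_) p
      · show avg μ (Function.update f c z q) φ = avg μ (f q) φ
        rw [Function.update_of_ne hq]
      · show kap μ i (Function.update f c z q) φ _ = kap μ i (f q) φ _
        rw [Function.update_of_ne hq]
  rw [h1, h1, ← Matrix.det_updateCol_smul]
  congr 2
  funext p
  refine Fin.cases ?_ (fun p => ?_) p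
  · exact avg_smul r x φ
  · exact kap_smul r x φ _

/-- what the random metric and its eigenfunctions satisfy -/
structure Hyp (μ : Measure M) (i : H →L[ℝ] Lp ℝ 2 μ) (a : H →L[ℝ] H →L[ℝ] ℝ)
    (b : C(M, ℝ) → H →L[ℝ] H →L[ℝ] ℝ) (e : C(M, ℝ) → ℕ → H) (E : C(M, ℝ) → ℕ → ℝ)
    (P : Measure C(M, ℝ)) (S : Set C(M, ℝ)) : Prop where
  sf : Sf μ i a
  isb : IsB μ i b
  wl : Wl μ a b
  eg : ∀ φ, Eg a (b φ) (e φ) (E φ)
  dn : Dense (Submodule.span ℝ S : Set C(M, ℝ))
  qi : ∀ h ∈ S, ∀ t : ℝ, P.map (fun φ => φ + t • h) ≪ P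

variable {P : Measure C(M, ℝ)} [IsProbabilityMeasure P] {S : Set C(M, ℝ)}

theorem Hyp.kap_bd (hy : Hyp μ i a b e E P S) (f φ : C(M, ℝ)) (j : ℕ) :
    |kap μ i f φ (e φ j)| ≤ ‖f‖ := by
  obtain ⟨b', hB', hFmb, hpos, hcomp, hk⟩ := tFm M μ H i a hy.sf
  have hbb : b' = b := b_unique hB' hy.isb
  subst hbb
  obtain ⟨k, -, hk2, -⟩ := hk f
  have h1 := hk2 φ (e φ j)
  rw [h1.1, (hy.eg φ).orth j j, if_pos rfl, mul_one] at h1
  exact h1.2

theorem Hyp.pos (hy : Hyp μ i a b e E P S) (φ : C(M, ℝ)) : 0 < ∫ x, Real.exp (φ x) ∂μ := by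
  obtain ⟨b', hB', hFmb, hpos, hcomp, hk⟩ := tFm M μ H i a hy.sf
  exact hpos φ

theorem Hyp.ls (hy : Hyp μ i a b e E P S) {j : ℕ} (hj : ∀ φ, 0 < Ev a (b φ) j) :
    Ls fun φ => Ev a (b φ) j := by
  obtain ⟨b', hB', hFmb, hpos, hcomp, hk⟩ := tFm M μ H i a hy.sf
  have hbb : b' = b := b_unique hB' hy.isb
  subst hbb
  obtain ⟨-, -, hlip, -, -⟩ := tLip M μ H a b' hFmb hcomp
  exact ⟨hj, fun φ ψ => hlip φ ψ j⟩

/-- the index from which on everything is fine -/
theorem Hyp.j0 (hy : Hyp μ i a b e E P S) : ∃ j0 : ℕ, (∀ j, j0 ≤ j → ∀ φ, 0 < Ev a (b φ) j) ∧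
    ∀ f j, j0 ≤ j → AEStronglyMeasurable (fun φ => kap μ i f φ (e φ j)) P := by
  obtain ⟨b', hB', hFmb, hpos, hcomp, hk⟩ := tFm M μ H i a hy.sf
  have hbb : b' = b := b_unique hB' hy.isb
  subst hbb
  obtain ⟨-, -, -, -, hdich⟩ := tLip M μ H a b' hFmb hcomp
  obtain ⟨J, hJ⟩ : ∃ J : ℕ, ∀ j, J ≤ j → ∀ φ, 0 < Ev a (b' φ) j := by
    have h1 := hy.wl 0
    have h2 : (0 : ℝ) < 4 * π / ∫ x, Real.exp ((0 : C(M, ℝ)) x) ∂μ := by
      have := hpos 0
      positivity
    obtain ⟨J, hJ⟩ := eventually_atTop.mp (h1.eventually (lt_mem_nhds h2))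
    refine ⟨J, fun j hj => ?_⟩
    rcases hdich j with h3 | h3
    · have h4 := hJ j hj
      rw [h3 0, zero_div] at h4
      exact absurd h4 (lt_irrefl _)
    · exact h3
  obtain ⟨⟨J', hJ'⟩, -⟩ := tAbs M μ H i a b' hy.sf hy.isb hy.wl e E hy.eg P S hy.dn hy.qi
  exact ⟨max J J', fun j hj => hJ j ((le_max_left _ _).trans hj),
    fun f j hj => hJ' f j ((le_max_right _ _).trans hj)⟩

/-- the logarithms of the area and of the eigenvalues -/
def Lg (μ : Measure M) (a : H →L[ℝ] H →L[ℝ] ℝ) (b : C(M, ℝ) → H →L[ℝ] H →L[ℝ] ℝ)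
    (J : Fin (n + 1) → ℕ) (φ : C(M, ℝ)) : Fin (n + 2) → ℝ :=
  hv μ (fun p φ => Ev a (b φ) (J p)) (fun p => Real.log ((J p : ℝ) + 1)) φ

theorem Hyp.lim (hy : Hyp μ i a b e E P S) (J : ℕ → ℕ) (hJ : Tendsto J atTop atTop)
    (φ : C(M, ℝ)) : Tendsto (fun k => (Real.log (4 * π) - Real.log (∫ x, Real.exp (φ x) ∂μ)) -
      (Real.log (Ev a (b φ) (J k)) - Real.log ((J k : ℝ) + 1))) atTop (𝓝 0) := by
  have h1 := (hy.wl φ).comp hJ
  have h2 : (0 : ℝ) < 4 * π / ∫ x, Real.exp (φ x) ∂μ := by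
    have := hy.pos φ
    positivity
  have h3 := h1.log h2.ne'
  have h4 := h3.const_sub (Real.log (4 * π / ∫ x, Real.exp (φ x) ∂μ))
  rw [sub_self] at h4
  refine h4.congr' ?_
  filter_upwards [h1.eventually (lt_mem_nhds h2)] with k hk
  have h5 : (0 : ℝ) < (J k : ℝ) + 1 := by positivity
  have h6 : 0 < Ev a (b φ) (J k) := by
    have h7 : (0 : ℝ) < Ev a (b φ) (J k) / ((J k : ℝ) + 1) := hk
    by_contra hn
    push_neg at hn
    have h8 := div_nonpos_of_nonpos_of_nonneg hn h5.le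
    linarith
  show Real.log (4 * π / ∫ x, Real.exp (φ x) ∂μ) -
    Real.log (Ev a (b φ) (J k) / ((J k : ℝ) + 1)) = _
  rw [Real.log_div (by positivity) (hy.pos φ).ne', Real.log_div h6.ne' h5.ne']

theorem kmat_meas (hy : Hyp μ i a b e E P S) {J : Fin (n + 1) → ℕ}
    (hJ : ∀ p f, AEStronglyMeasurable (fun φ => kap μ i f φ (e φ (J p))) P)
    (f : Fin (n + 2) → C(M, ℝ)) : AEStronglyMeasurable (fun φ => (kmat μ i J e f φ).det) P := by
  have h0 : ∀ p q, AEStronglyMeasurable (fun φ => kmat μ i J e f φ p q) P := by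
    intro p q
    refine Fin.cases ?_ (fun p => ?_) p
    · exact ((Pool.Agent.Y689.QR.cm M μ).2.1 (f q)).aestronglyMeasurable
    · exact hJ p (f q)
  have h1 : (fun φ => (kmat μ i J e f φ).det) = fun φ => ∑ σ : Equiv.Perm (Fin (n + 2)),
      ((Equiv.Perm.sign σ : ℤ) : ℝ) * ∏ q, kmat μ i J e f φ (σ q) q := by
    funext x
    rw [Matrix.det_apply']
  rw [h1]
  refine Finset.aestronglyMeasurable_fun_sum _ fun σ _ => ?_
  exact (Finset.aestronglyMeasurable_fun_prod _ fun q _ => h0 (σ q) q).const_mul _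

theorem kmat_bd (hy : Hyp μ i a b e E P S) (J : Fin (n + 1) → ℕ)
    (f : Fin (n + 2) → C(M, ℝ)) (φ : C(M, ℝ)) :
    |(kmat μ i J e f φ).det| ≤ (n + 2).factorial * ∏ q, ‖f q‖ := by
  refine det_col _ _ fun p q => ?_
  refine Fin.cases ?_ (fun p => ?_) p
  · exact (Pool.Agent.Y689.QR.cm M μ).2.2.1 (f q) φ
  · exact hy.kap_bd (f q) φ (J p)

theorem Lg_meas (hy : Hyp μ i a b e E P S) {J : Fin (n + 1) → ℕ}
    (hJ : ∀ p φ, 0 < Ev a (b φ) (J p)) : Measurable (Lg μ a b J) :=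
  hv_meas hy.pos _ (fun p => hy.ls (hJ p)) _

/-- functions of class `C¹` of the eigenvalues -/
theorem md1 (hy : Hyp μ i a b e E P S) (J : Fin (n + 1) → ℕ → ℕ)
    (hJ0 : ∀ p k φ, 0 < Ev a (b φ) (J p k))
    (hJ1 : ∀ p k f, AEStronglyMeasurable (fun φ => kap μ i f φ (e φ (J p k))) P)
    (hJ : Tendsto (J 0) atTop atTop) (f : Fin (n + 2) → C(M, ℝ))
    (g : ℕ → (Fin (n + 2) → ℝ) → ℝ) (hg : ∀ k, ContDiff ℝ 1 (g k)) (hg1 : ∀ k y, |g k y| ≤ 1)
    (χ : C(M, ℝ) → ℝ) (hχ : Integrable χ P) :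
    Tendsto (fun k => ∫ φ, χ φ * (g k (Lg μ a b (fun p => J p k) φ) *
      (kmat μ i (fun p => J p k) e f φ).det) ∂P) atTop (𝓝 0) := by
  have hgm : ∀ k, Measurable fun φ => g k (Lg μ a b (fun p => J p k) φ) := fun k =>
    (hg k).continuous.measurable.comp (Lg_meas hy fun p => hJ0 p k)
  have hint : ∀ k f, Integrable (fun φ => χ φ * (g k (Lg μ a b (fun p => J p k) φ) *
      (kmat μ i (fun p => J p k) e f φ).det)) P := by
    intro k f
    refine hχ.mul_bdd (c := 1 * ((n + 2).factorial * ∏ q, ‖f q‖))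
      ((hgm k).aestronglyMeasurable.mul (kmat_meas hy (fun p => hJ1 p k) f))
      (Eventually.of_forall fun φ => ?_)
    rw [Real.norm_eq_abs, abs_mul]
    exact mul_le_mul (hg1 k _) (kmat_bd hy _ f φ) (abs_nonneg _) zero_le_one
  refine mdense (fun k f => ∫ φ, χ φ * (g k (Lg μ a b (fun p => J p k) φ) *
      (kmat μ i (fun p => J p k) e f φ).det) ∂P) (fun k f c x y => ?_) (fun k f c r x => ?_)
    ((∫ φ, |χ φ| ∂P) * (n + 2).factorial) (fun k f => ?_) S hy.dn (fun f hf => ?_) f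
  · rw [← integral_add (hint k _) (hint k _)]
    refine integral_congr_ae (Eventually.of_forall fun φ => ?_)
    simp only [kmat_add]
    ring
  · rw [← integral_const_mul]
    refine integral_congr_ae (Eventually.of_forall fun φ => ?_)
    simp only [kmat_smul]
    ring
  · rw [mul_assoc, ← integral_mul_const, ← Real.norm_eq_abs]
    refine norm_integral_le_of_norm_le (hχ.abs.mul_const _) (Eventually.of_forall fun φ => ?_)
    rw [Real.norm_eq_abs, abs_mul]
    refine mul_le_mul_of_nonneg_left ?_ (abs_nonneg _)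
    rw [abs_mul]
    have h1 := mul_le_mul (hg1 k (Lg μ a b (fun p => J p k) φ))
      (kmat_bd hy (fun p => J p k) f φ) (abs_nonneg _) zero_le_one
    rwa [one_mul] at h1
  · have h1 := lvl Pool.Agent.Y689.QR.cm hy.pos (fun k p φ => Ev a (b φ) (J p k))
      (fun k p => hy.ls (hJ0 p k)) (fun k p => Real.log ((J p k : ℝ) + 1))
      (fun φ => hy.lim (J 0) hJ φ) P f (fun q => hy.qi (f q) (hf q)) g hg hg1 χ hχ
    refine h1.congr fun k => ?_
    refine integral_congr_ae ?_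
    have h2 : ∀ᵐ φ ∂P, ∀ p q, kap μ i (f q) φ (e φ (J p k)) =
        XX (fun φ => Ev a (b φ) (J p k)) (f q) φ := by
      rw [ae_all_iff]
      intro p
      rw [ae_all_iff]
      intro q
      exact kx μ H i a b hy.sf hy.isb hy.wl e E hy.eg P (f q) (hy.qi (f q) (hf q)) (J p k)
        (hJ0 p k)
    filter_upwards [h2] with φ hφ
    have h3 : kmat μ i (fun p => J p k) e f φ = mat μ (fun p φ => Ev a (b φ) (J p k)) f φ := by
      ext p q
      refine Fin.cases ?_ (fun p => ?_) p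
      · rfl
      · exact hφ p q
    rw [h3]
    rfl

/-- Borel functions of the eigenvalues -/
theorem md2 (hy : Hyp μ i a b e E P S) (J : Fin (n + 1) → ℕ → ℕ)
    (hJ0 : ∀ p k φ, 0 < Ev a (b φ) (J p k))
    (hJ1 : ∀ p k f, AEStronglyMeasurable (fun φ => kap μ i f φ (e φ (J p k))) P)
    (hJ : Tendsto (J 0) atTop atTop) (f : Fin (n + 2) → C(M, ℝ))
    (g : ℕ → (Fin (n + 2) → ℝ) → ℝ) (hg : ∀ k, Measurable (g k)) (hg1 : ∀ k y, |g k y| ≤ 1)
    (χ : C(M, ℝ) → ℝ) (hχ : Integrable χ P) :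
    Tendsto (fun k => ∫ φ, χ φ * (g k (Lg μ a b (fun p => J p k) φ) *
      (kmat μ i (fun p => J p k) e f φ).det) ∂P) atTop (𝓝 0) := by
  have hLm : ∀ k, Measurable (Lg μ a b (fun p => J p k)) := fun k => Lg_meas hy fun p => hJ0 p k
  choose g' h1 _ h3 h4 using fun k : ℕ => apx P (Lg μ a b (fun p => J p k)) (hLm k) χ hχ (g k)
    (hg k) (hg1 k) (1 / ((k : ℝ) + 1)) (by positivity)
  have h5 := md1 hy J hJ0 hJ1 hJ f g' h1 h3 χ hχ
  set K : ℝ := (n + 2).factorial * ∏ q, ‖f q‖ with hK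
  have hK0 : 0 ≤ K := mul_nonneg (Nat.cast_nonneg _) (Finset.prod_nonneg fun q _ => norm_nonneg _)
  have hint : ∀ (G : (Fin (n + 2) → ℝ) → ℝ) (k : ℕ), Measurable G → (∀ y, |G y| ≤ 1) →
      Integrable (fun φ => χ φ * (G (Lg μ a b (fun p => J p k) φ) *
      (kmat μ i (fun p => J p k) e f φ).det)) P := by
    intro G k hG hG1
    refine hχ.mul_bdd (c := 1 * K)
      ((hG.comp (hLm k)).aestronglyMeasurable.mul (kmat_meas hy (fun p => hJ1 p k) f))
      (Eventually.of_forall fun φ => ?_)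
    rw [Real.norm_eq_abs, abs_mul]
    exact mul_le_mul (hG1 _) (kmat_bd hy _ f φ) (abs_nonneg _) zero_le_one
  have h6 : Tendsto (fun k : ℕ => K * (1 / ((k : ℝ) + 1))) atTop (𝓝 0) := by
    have := tendsto_one_div_add_atTop_nhds_zero_nat (𝕜 := ℝ) |>.const_mul K
    rwa [mul_zero] at this
  have h7 : Tendsto (fun k => ∫ φ, χ φ * (g k (Lg μ a b (fun p => J p k) φ) *
      (kmat μ i (fun p => J p k) e f φ).det) ∂P - ∫ φ, χ φ * (g' k (Lg μ a b (fun p => J p k) φ) *
      (kmat μ i (fun p => J p k) e f φ).det) ∂P) atTop (𝓝 0) := by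
    refine squeeze_zero_norm (fun k => ?_) h6
    have hm' : Measurable (g' k) := (h1 k).continuous.measurable
    rw [← integral_sub (hint (g k) k (hg k) (hg1 k)) (hint (g' k) k hm' (h3 k))]
    refine (norm_integral_le_integral_norm _).trans ?_
    have h8 : Integrable (fun φ => |χ φ * (g k (Lg μ a b (fun p => J p k) φ) -
        g' k (Lg μ a b (fun p => J p k) φ))|) P := by
      refine (hχ.mul_bdd (c := 2) (((hg k).comp (hLm k)).sub
        (hm'.comp (hLm k))).aestronglyMeasurable (Eventually.of_forall fun φ => ?_)).abs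
      rw [Real.norm_eq_abs]
      refine (abs_sub _ _).trans ?_
      have e1 : |(g k ∘ Lg μ a b fun p => J p k) φ| ≤ 1 := hg1 k _
      have e2 : |(g' k ∘ Lg μ a b fun p => J p k) φ| ≤ 1 := h3 k _
      linarith
    calc ∫ φ, ‖χ φ * (g k (Lg μ a b (fun p => J p k) φ) *
          (kmat μ i (fun p => J p k) e f φ).det) - χ φ * (g' k (Lg μ a b (fun p => J p k) φ) *
          (kmat μ i (fun p => J p k) e f φ).det)‖ ∂P
        ≤ ∫ φ, K * |χ φ * (g k (Lg μ a b (fun p => J p k) φ) -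
          g' k (Lg μ a b (fun p => J p k) φ))| ∂P := by
          refine integral_mono_of_nonneg (Eventually.of_forall fun φ => norm_nonneg _)
            (h8.const_mul K) (Eventually.of_forall fun φ => ?_)
          show ‖_‖ ≤ K * _
          rw [Real.norm_eq_abs]
          have h9 : χ φ * (g k (Lg μ a b (fun p => J p k) φ) *
              (kmat μ i (fun p => J p k) e f φ).det) - χ φ * (g' k (Lg μ a b (fun p => J p k) φ) *
              (kmat μ i (fun p => J p k) e f φ).det) =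
              (kmat μ i (fun p => J p k) e f φ).det * (χ φ * (g k (Lg μ a b (fun p => J p k) φ) -
              g' k (Lg μ a b (fun p => J p k) φ))) := by ring
          rw [h9, abs_mul]
          exact mul_le_mul_of_nonneg_right (kmat_bd hy _ f φ) (abs_nonneg _)
      _ = K * ∫ φ, |χ φ * (g k (Lg μ a b (fun p => J p k) φ) -
          g' k (Lg μ a b (fun p => J p k) φ))| ∂P := integral_const_mul _ _
      _ ≤ _ := mul_le_mul_of_nonneg_left (h4 k) hK0
  have h8 := h7.add h5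
  rw [zero_add] at h8
  refine h8.congr fun k => ?_
  ring

end Pool.Agent.Helper34.QD
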