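import Pool.Agent.Helper34.QD.Wk
import Pool.Agent.Y264.QR.All

/-!
# Several directions of a quasi-invariant law
-/

set_option autoImplicit false

open Set Filter Topology MeasureTheory
open scoped NNReal ENNReal Matrix Real
open Pool.Agent.Y262.QE Pool.Agent.Y264.QR Pool.Agent.Y319.QR

noncomputable section

namespace Pool.Agent.Helper34.QD

section sl

variable {M : Type} [MetricSpace M] [CompactSpace M] {n : ℕ}

/-- translation by a linear combination -/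
def tr {N : ℕ} (f : Fin N → C(M, ℝ)) (t : Fin N → ℝ) (φ : C(M, ℝ)) : C(M, ℝ) :=
  φ + ∑ b, t b • f b

theorem tr_single {N : ℕ} (f : Fin N → C(M, ℝ)) (t : Fin N → ℝ) (φ : C(M, ℝ)) (b : Fin N)
    (τ : ℝ) : tr f (t + τ • Pi.single b 1) φ = tr f t φ + τ • f b := by
  unfold tr
  rw [add_assoc]
  congr 1
  have h1 : ∀ c, (t + τ • (Pi.single b 1 : Fin N → ℝ)) c • f c =
      t c • f c + (if c = b then τ • f b else 0) := by
    intro c
    rw [Pi.add_apply, Pi.smul_apply, smul_eq_mul, add_smul]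
    congr 1
    by_cases h : c = b
    · subst h
      simp
    · rw [Pi.single_eq_of_ne h, if_neg h, mul_zero, zero_smul]
  rw [Finset.sum_congr rfl fun c _ => h1 c, Finset.sum_add_distrib, Finset.sum_ite_eq']
  simp

theorem tr_dist {N : ℕ} (f : Fin N → C(M, ℝ)) (s t : Fin N → ℝ) (φ : C(M, ℝ)) :
    ‖tr f s φ - tr f t φ‖ ≤ ((∑ b, ‖f b‖₊ : ℝ≥0) : ℝ) * dist s t := by
  unfold tr
  rw [add_sub_add_left_eq_sub, ← Finset.sum_sub_distrib]
  refine (norm_sum_le _ _).trans ?_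
  push_cast
  rw [Finset.sum_mul]
  refine Finset.sum_le_sum fun b _ => ?_
  rw [← sub_smul, norm_smul, mul_comm]
  refine mul_le_mul_of_nonneg_left ?_ (norm_nonneg _)
  rw [← dist_eq_norm]
  exact dist_le_pi_dist s t b

/-- a positive function whose logarithm is Lipschitz -/
structure Ls (G : C(M, ℝ) → ℝ) : Prop where
  pos : ∀ φ, 0 < G φ
  lip : ∀ φ ψ, G φ ≤ Real.exp ‖φ - ψ‖ * G ψ

theorem Ls.log_le {G : C(M, ℝ) → ℝ} (h : Ls G) (φ ψ : C(M, ℝ)) :
    Real.log (G φ) - Real.log (G ψ) ≤ ‖φ - ψ‖ := by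
  have h1 := Real.log_le_log (h.pos φ) (h.lip φ ψ)
  rw [Real.log_mul (Real.exp_pos _).ne' (h.pos ψ).ne', Real.log_exp] at h1
  linarith

theorem Ls.abs_le {G : C(M, ℝ) → ℝ} (h : Ls G) (φ ψ : C(M, ℝ)) :
    |Real.log (G φ) - Real.log (G ψ)| ≤ ‖φ - ψ‖ := by
  rw [_root_.abs_le]
  have h1 := h.log_le φ ψ
  have h2 := h.log_le ψ φ
  rw [norm_sub_rev] at h2
  constructor <;> linarith

theorem Ls.lipschitz {G : C(M, ℝ) → ℝ} (h : Ls G) {N : ℕ} (f : Fin N → C(M, ℝ)) (φ : C(M, ℝ))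
    (c : ℝ) : LipschitzWith (∑ b, ‖f b‖₊) fun t => Real.log (G (tr f t φ)) - c := by
  refine LipschitzWith.of_dist_le_mul fun s t => ?_
  rw [dist_sub_right, Real.dist_eq]
  exact (h.abs_le _ _).trans (tr_dist f s t φ)

theorem Ls.lipschitz1 {G : C(M, ℝ) → ℝ} (h : Ls G) (φ f : C(M, ℝ)) (c : ℝ) :
    LipschitzWith ‖f‖₊ fun τ : ℝ => Real.log (G (φ + τ • f)) - c := by
  refine LipschitzWith.of_dist_le_mul fun s t => ?_
  rw [dist_sub_right, Real.dist_eq]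
  refine (h.abs_le _ _).trans ?_
  rw [add_sub_add_left_eq_sub, ← sub_smul, norm_smul, mul_comm, ← dist_eq_norm]
  rfl

/-- the partial derivative of a function on a slice -/
theorem line_der {N : ℕ} (f : Fin N → C(M, ℝ)) (φ : C(M, ℝ)) (F : C(M, ℝ) → ℝ) (t : Fin N → ℝ)
    (b : Fin N) (h : DifferentiableAt ℝ (fun t => F (tr f t φ)) t) :
    HasDerivAt (fun τ : ℝ => F (tr f t φ + τ • f b)) (grd (fun t => F (tr f t φ)) t b) 0 := by
  have h1 : HasDerivAt (fun τ : ℝ => t + τ • (Pi.single b 1 : Fin N → ℝ)) (Pi.single b 1) 0 := by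
    have h2 : HasDerivAt (fun τ : ℝ => τ • (Pi.single b 1 : Fin N → ℝ)) ((1 : ℝ) • Pi.single b 1) 0 :=
      (hasDerivAt_id (0 : ℝ)).smul_const _
    rw [one_smul] at h2
    exact h2.const_add t
  have h3 : HasFDerivAt (fun t => F (tr f t φ)) (fderiv ℝ (fun t => F (tr f t φ)) t)
      (t + (0 : ℝ) • (Pi.single b 1 : Fin N → ℝ)) := by
    rw [zero_smul, add_zero]
    exact h.hasFDerivAt
  have h4 := h3.comp_hasDerivAt (0 : ℝ) h1
  have h5 : ((fun t => F (tr f t φ)) ∘ fun τ : ℝ => t + τ • (Pi.single b 1 : Fin N → ℝ)) =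
      fun τ : ℝ => F (tr f t φ + τ • f b) := by
    funext τ
    show F (tr f (t + τ • Pi.single b 1) φ) = _
    rw [tr_single]
  rw [h5] at h4
  exact h4

theorem grd_XX {G : C(M, ℝ) → ℝ} (h : Ls G) {N : ℕ} (f : Fin N → C(M, ℝ)) (φ : C(M, ℝ)) (c : ℝ)
    (t : Fin N → ℝ) (b : Fin N)
    (hd : DifferentiableAt ℝ (fun t => Real.log (G (tr f t φ)) - c) t) :
    grd (fun t => Real.log (G (tr f t φ)) - c) t b = -XX G (f b) (tr f t φ) := by
  have h1 := line_der f φ (fun φ => Real.log (G φ) - c) t b hd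
  set D := grd (fun t => Real.log (G (tr f t φ)) - c) t b with hD
  have h2 : |D| ≤ ‖f b‖ := by
    have := h1.le_of_lipschitz (h.lipschitz1 (tr f t φ) (f b) c)
    exact this
  have h3 : HasDerivAt (fun τ : ℝ => G (tr f t φ + τ • f b)) (-(-D * G (tr f t φ))) 0 := by
    have h4 : HasDerivAt (fun τ : ℝ => Real.exp ((Real.log (G (tr f t φ + τ • f b)) - c) + c))
        (Real.exp ((Real.log (G (tr f t φ + (0 : ℝ) • f b)) - c) + c) * D) 0 :=
      (h1.add_const c).exp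
    have h5 : (fun τ : ℝ => Real.exp ((Real.log (G (tr f t φ + τ • f b)) - c) + c)) =
        fun τ : ℝ => G (tr f t φ + τ • f b) := by
      funext τ
      rw [sub_add_cancel, Real.exp_log (h.pos _)]
    rw [h5, sub_add_cancel, Real.exp_log (h.pos _), zero_smul, add_zero] at h4
    have h6 : G (tr f t φ) * D = -(-D * G (tr f t φ)) := by ring
    rwa [h6] at h4
  rw [XX_eq h3 (h.pos _) (by rwa [abs_neg]), neg_neg]

end sl

section mea

variable {M : Type} [MetricSpace M] [CompactSpace M] [MeasurableSpace M] [BorelSpace M]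
  {μ : Measure M} [IsFiniteMeasure μ] {n : ℕ}

theorem grd_avg (hpos : ∀ φ : C(M, ℝ), 0 < ∫ x, Real.exp (φ x) ∂μ) {N : ℕ}
    (f : Fin N → C(M, ℝ)) (φ : C(M, ℝ)) (c : ℝ) (t : Fin N → ℝ) (b : Fin N)
    (hd : DifferentiableAt ℝ (fun t => c - Real.log (∫ x, Real.exp (tr f t φ x) ∂μ)) t) :
    grd (fun t => c - Real.log (∫ x, Real.exp (tr f t φ x) ∂μ)) t b =
      -avg μ (f b) (tr f t φ) := by
  have h1 := line_der f φ (fun φ => c - Real.log (∫ x, Real.exp (φ x) ∂μ)) t b hd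
  have h2 := Pool.Agent.Y155.QR.hdA (μ := μ) (tr f t φ) (f b) 0
  have h3 : HasDerivAt (fun τ : ℝ => c - Real.log (∫ x, Real.exp ((tr f t φ + τ • f b) x) ∂μ))
      (-((∫ x, (f b) x * Real.exp ((tr f t φ + (0 : ℝ) • f b) x) ∂μ) /
        ∫ x, Real.exp ((tr f t φ + (0 : ℝ) • f b) x) ∂μ)) 0 :=
    (h2.log (hpos _).ne').const_sub c
  rw [zero_smul, add_zero] at h3
  have h4 := h1.unique h3
  rw [h4]
  rfl

/-- the matrix of the mean values and of the clipped logarithmic derivatives -/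
def mat (μ : Measure M) (G : Fin (n + 1) → C(M, ℝ) → ℝ) (f : Fin (n + 2) → C(M, ℝ))
    (φ : C(M, ℝ)) : Matrix (Fin (n + 2)) (Fin (n + 2)) ℝ :=
  Matrix.of (Fin.cons (fun b => avg μ (f b) φ) fun a b => XX (G a) (f b) φ)

theorem Ls_area (hpos : ∀ φ : C(M, ℝ), 0 < ∫ x, Real.exp (φ x) ∂μ) :
    Ls fun φ : C(M, ℝ) => ∫ x, Real.exp (φ x) ∂μ where
  pos := hpos
  lip φ ψ := by
    rw [← integral_const_mul]
    have hi : ∀ φ : C(M, ℝ), Integrable (fun x => Real.exp (φ x)) μ := fun φ =>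
      Pool.Agent.Y155.QR.int_cont μ (by fun_prop)
    refine integral_mono (hi φ) ((hi ψ).const_mul _) fun x => ?_
    show Real.exp (φ x) ≤ Real.exp ‖φ - ψ‖ * Real.exp (ψ x)
    rw [← Real.exp_add]
    apply Real.exp_le_exp.mpr
    have h1 : φ x - ψ x ≤ ‖φ - ψ‖ := (le_abs_self _).trans ((φ - ψ).norm_coe_le_norm x)
    linarith

/-- the functions on a slice -/
def Hs (μ : Measure M) (G : Fin (n + 1) → C(M, ℝ) → ℝ) (c : Fin (n + 1) → ℝ)
    (f : Fin (n + 2) → C(M, ℝ)) (φ : C(M, ℝ)) : Fin (n + 2) → (Fin (n + 2) → ℝ) → ℝ :=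
  Fin.cons (fun t => Real.log (4 * π) - Real.log (∫ x, Real.exp (tr f t φ x) ∂μ))
    fun a t => Real.log (G a (tr f t φ)) - c a

theorem Hs_lip (hpos : ∀ φ : C(M, ℝ), 0 < ∫ x, Real.exp (φ x) ∂μ)
    (G : Fin (n + 1) → C(M, ℝ) → ℝ) (hG : ∀ a, Ls (G a)) (c : Fin (n + 1) → ℝ)
    (f : Fin (n + 2) → C(M, ℝ)) (φ : C(M, ℝ)) (a : Fin (n + 2)) :
    LipschitzWith (∑ b, ‖f b‖₊) (Hs μ G c f φ a) := by
  refine Fin.cases ?_ (fun a => ?_) a
  · have h1 := (Ls_area hpos).lipschitz f φ 0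
    refine LipschitzWith.of_dist_le_mul fun s t => ?_
    have h2 := h1.dist_le_mul s t
    simp only [sub_zero] at h2
    show dist (Real.log (4 * π) - _) (Real.log (4 * π) - _) ≤ _
    rw [dist_sub_left]
    exact h2
  · exact (hG a).lipschitz f φ (c a)

theorem Hs_Jd (hpos : ∀ φ : C(M, ℝ), 0 < ∫ x, Real.exp (φ x) ∂μ)
    (G : Fin (n + 1) → C(M, ℝ) → ℝ) (hG : ∀ a, Ls (G a)) (c : Fin (n + 1) → ℝ)
    (f : Fin (n + 2) → C(M, ℝ)) (φ : C(M, ℝ)) :
    ∀ᵐ t : Fin (n + 2) → ℝ, Jd (Hs μ G c f φ) t = (-1) ^ (n + 2) * (mat μ G f (tr f t φ)).det := by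
  have h1 : ∀ᵐ t : Fin (n + 2) → ℝ, ∀ a, DifferentiableAt ℝ (Hs μ G c f φ a) t :=
    ae_all_iff.mpr fun a => (Hs_lip hpos G hG c f φ a).ae_differentiableAt
  filter_upwards [h1] with t ht
  unfold Jd
  have h2 : (Matrix.of fun a => grd (Hs μ G c f φ a) t) = -mat μ G f (tr f t φ) := by
    ext a b
    refine Fin.cases ?_ (fun a => ?_) a
    · rw [Matrix.of_apply, Matrix.neg_apply]
      exact grd_avg hpos f φ (Real.log (4 * π)) t b (ht 0)
    · rw [Matrix.of_apply, Matrix.neg_apply]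
      exact grd_XX (hG a) f φ (c a) t b (ht a.succ)
  rw [h2, Matrix.det_neg, Fintype.card_fin]

end mea

end Pool.Agent.Helper34.QD
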