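import Pool.Agent.Helper34.QD.Ibp

/-!
# Weak convergence of Jacobian determinants; quasi-invariant measures with several parameters
-/

set_option autoImplicit false

open Set Filter Topology MeasureTheory
open scoped NNReal ENNReal Matrix

noncomputable section

namespace Pool.Agent.Helper34.QD

/-- weak convergence of determinants, with weights which depend on the functions -/
theorem slice {n : ℕ} (H : ℕ → Fin (n + 2) → (Fin (n + 2) → ℝ) → ℝ) (L : ℝ≥0)
    (hH : ∀ k a, LipschitzWith L (H k a))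
    (hlim : ∀ x, Tendsto (fun k => H k 0 x - H k 1 x) atTop (𝓝 0))
    (g : ℕ → (Fin (n + 2) → ℝ) → ℝ) (hg : ∀ k, ContDiff ℝ 1 (g k)) (hg1 : ∀ k y, |g k y| ≤ 1)
    (χ : (Fin (n + 2) → ℝ) → ℝ) (hχ : Integrable χ volume) :
    Tendsto (fun k => ∫ x, χ x * (g k (fun a => H k a x) * Jd (H k) x)) atTop (𝓝 0) := by
  set C0 : ℝ := (n + 2).factorial * (L : ℝ) ^ (n + 2) with hC0
  have hC0' : 0 ≤ C0 := by positivity
  have hbd : ∀ k x, |g k (fun a => H k a x) * Jd (H k) x| ≤ C0 := by
    intro k x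
    rw [abs_mul]
    calc _ ≤ 1 * C0 := mul_le_mul (hg1 k _) (Jd_bd (H k) L (hH k) x) (abs_nonneg _) zero_le_one
      _ = C0 := one_mul _
  have hms : ∀ k, Measurable fun x => g k (fun a => H k a x) * Jd (H k) x := fun k =>
    ((hg k).continuous.measurable.comp
      (measurable_pi_lambda _ fun a => (hH k a).continuous.measurable)).mul (Jd_meas _)
  -- smooth functions with compact support
  have key : ∀ χ' : (Fin (n + 2) → ℝ) → ℝ, HasCompactSupport χ' → ContDiff ℝ 1 χ' →
      Tendsto (fun k => ∫ x, χ' x * (g k (fun a => H k a x) * Jd (H k) x)) atTop (𝓝 0) := by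
    intro χ' hc hs
    obtain ⟨Lχ, hLχ⟩ := ContDiff.lipschitzWith_of_hasCompactSupport hc hs (by simp)
    obtain ⟨R, hR⟩ : ∃ R : ℝ, ∀ x, R < ‖x‖ → χ' x = 0 := by
      obtain ⟨R, hR⟩ := hc.isBounded.subset_closedBall (0 : Fin (n + 2) → ℝ)
      refine ⟨R, fun x hx => ?_⟩
      by_contra h
      have := hR (subset_tsupport χ' (Function.mem_support.mpr h))
      rw [Metric.mem_closedBall, dist_zero_right] at this
      linarith
    set B := Metric.closedBall (0 : Fin (n + 2) → ℝ) R with hB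
    have hBm : MeasurableSet B := Metric.isClosed_closedBall.measurableSet
    have hBf : volume B < ⊤ := measure_closedBall_lt_top
    have hd : Tendsto (fun k => ∫ x in B, |H k 0 x - H k 1 x|) atTop (𝓝 0) := by
      obtain ⟨A, hA⟩ : ∃ A : ℝ, ∀ k, |H k 0 0 - H k 1 0| ≤ A := by
        obtain ⟨A, hA⟩ := (Metric.isBounded_range_of_tendsto _ (hlim 0)).exists_norm_le
        exact ⟨A, fun k => hA _ ⟨k, rfl⟩⟩
      have h1 : Tendsto (fun k => ∫ x in B, |H k 0 x - H k 1 x|) atTop
          (𝓝 (∫ _x in B, (0 : ℝ))) := by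
        haveI : IsFiniteMeasure (volume.restrict B) :=
          ⟨by rw [Measure.restrict_apply_univ]; exact hBf⟩
        refine tendsto_integral_of_dominated_convergence (fun _ => A + 2 * L * R)
          (fun k => (((hH k 0).continuous.sub (hH k 1).continuous).abs).aestronglyMeasurable)
          (integrable_const _) (fun k => ?_) (Eventually.of_forall fun x => ?_)
        · rw [ae_restrict_iff' hBm]
          refine Eventually.of_forall fun x hx => ?_
          rw [hB, Metric.mem_closedBall, dist_zero_right] at hx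
          rw [Real.norm_eq_abs, abs_abs]
          have e0 := (hH k 0).dist_le_mul x 0
          have e1 := (hH k 1).dist_le_mul x 0
          rw [Real.dist_eq, dist_zero_right] at e0 e1
          have e2 : H k 0 x - H k 1 x = (H k 0 0 - H k 1 0) + ((H k 0 x - H k 0 0) -
              (H k 1 x - H k 1 0)) := by ring
          rw [e2]
          have e3 : (L : ℝ) * ‖x‖ ≤ L * R := mul_le_mul_of_nonneg_left hx L.2
          calc _ ≤ |H k 0 0 - H k 1 0| + |(H k 0 x - H k 0 0) - (H k 1 x - H k 1 0)| :=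
                abs_add_le _ _
            _ ≤ A + (|H k 0 x - H k 0 0| + |H k 1 x - H k 1 0|) :=
                add_le_add (hA k) (abs_sub _ _)
            _ ≤ _ := by linarith
        · have := (hlim x).abs
          rwa [abs_zero] at this
      simpa using h1
    have h2 : ∀ k, |∫ x, χ' x * (g k (fun a => H k a x) * Jd (H k) x)| ≤
        ((n + 2).factorial * ((max Lχ L : ℝ≥0) : ℝ) ^ (n + 2)) *
          ∫ x in B, |H k 0 x - H k 1 x| := by
      intro k
      have := bnd (H k) L Lχ (hH k) χ' (hs.differentiable (by simp)) hLχ R hR (g k) (hg k)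
        (hg1 k)
      simpa only [mul_assoc] using this
    rw [tendsto_zero_iff_abs_tendsto_zero]
    refine squeeze_zero (fun k => abs_nonneg _) h2 ?_
    have := hd.const_mul (((n + 2).factorial * ((max Lχ L : ℝ≥0) : ℝ) ^ (n + 2)))
    rwa [mul_zero] at this
  rw [Metric.tendsto_atTop]
  intro ε hε
  have hmem : MemLp χ 1 volume := memLp_one_iff_integrable.mpr hχ
  obtain ⟨χ', hc, hs, hd⟩ := hmem.exist_eLpNorm_sub_le ENNReal.one_ne_top le_rfl
    (ε := ε / (2 * (C0 + 1))) (by positivity)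
  have hχ' : Integrable χ' volume := hs.continuous.integrable_of_hasCompactSupport hc
  have hd' : ∫ x, |χ x - χ' x| ≤ ε / (2 * (C0 + 1)) := by
    rw [eLpNorm_one_eq_lintegral_enorm] at hd
    have h1 : ∫ x, ‖χ x - χ' x‖ = (∫⁻ x, ‖(χ - χ') x‖ₑ).toReal := by
      exact integral_norm_eq_lintegral_enorm (hχ.sub hχ').aestronglyMeasurable
    simp only [Real.norm_eq_abs] at h1
    rw [h1]
    exact ENNReal.toReal_le_of_le_ofReal (by positivity) hd
  obtain ⟨N, hN⟩ := Metric.tendsto_atTop.mp (key χ' hc (hs.of_le (by simp))) (ε / 2) (by positivity)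
  refine ⟨N, fun k hk => ?_⟩
  have h1 := hN k hk
  rw [dist_zero_right, Real.norm_eq_abs] at h1 ⊢
  have hi1 : Integrable (fun x => χ' x * (g k (fun a => H k a x) * Jd (H k) x)) volume :=
    hχ'.mul_bdd (c := C0) (hms k).aestronglyMeasurable (Eventually.of_forall fun x => hbd k x)
  have hi2 : Integrable (fun x => (χ x - χ' x) * (g k (fun a => H k a x) * Jd (H k) x))
      volume :=
    (hχ.sub hχ').mul_bdd (c := C0) (hms k).aestronglyMeasurable
      (Eventually.of_forall fun x => hbd k x)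
  have h2 : ∫ x, χ x * (g k (fun a => H k a x) * Jd (H k) x) =
      (∫ x, (χ x - χ' x) * (g k (fun a => H k a x) * Jd (H k) x)) +
        ∫ x, χ' x * (g k (fun a => H k a x) * Jd (H k) x) := by
    rw [← integral_add hi2 hi1]
    refine integral_congr_ae (Eventually.of_forall fun x => ?_)
    show _ = _
    ring
  have h3 : |∫ x, (χ x - χ' x) * (g k (fun a => H k a x) * Jd (H k) x)| ≤
      (ε / (2 * (C0 + 1))) * C0 := by
    rw [← Real.norm_eq_abs]
    calc _ ≤ ∫ x, |χ x - χ' x| * C0 := by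
          refine norm_integral_le_of_norm_le (((hχ.sub hχ').abs).mul_const C0)
            (Eventually.of_forall fun x => ?_)
          rw [Real.norm_eq_abs, abs_mul]
          exact mul_le_mul_of_nonneg_left (hbd k x) (abs_nonneg _)
      _ = (∫ x, |χ x - χ' x|) * C0 := integral_mul_const _ _
      _ ≤ _ := mul_le_mul_of_nonneg_right hd' hC0'
  have h4 : (ε / (2 * (C0 + 1))) * C0 < ε / 2 := by
    rw [div_mul_eq_mul_div, div_lt_div_iff₀ (by positivity) (by positivity)]
    nlinarith
  rw [h2]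
  calc _ ≤ |∫ x, (χ x - χ' x) * (g k (fun a => H k a x) * Jd (H k) x)| +
        |∫ x, χ' x * (g k (fun a => H k a x) * Jd (H k) x)| := abs_add_le _ _
    _ < ε := by linarith

/-! ### quasi-invariant measures -/

section quasi

variable {N : ℕ} {Ω : Type} [MeasurableSpace Ω]

/-- Lebesgue measure on the unit cube -/
def lam (N : ℕ) : Measure (Fin N → ℝ) := volume.restrict (Icc 0 1)

instance : IsProbabilityMeasure (lam N) := ⟨by
  unfold lam
  rw [Measure.restrict_apply_univ, Real.volume_Icc_pi]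
  simp⟩

/-- the averaged measure -/
def QQ (P : Measure Ω) (θ : (Fin N → ℝ) → Ω → Ω) : Measure Ω :=
  Measure.map (fun p : (Fin N → ℝ) × Ω => θ p.1 p.2) ((lam N).prod P)

theorem P_ac (P : Measure Ω) [IsProbabilityMeasure P] {θ : (Fin N → ℝ) → Ω → Ω}
    (hm : Measurable fun p : (Fin N → ℝ) × Ω => θ p.1 p.2) (hac : ∀ t, P ≪ P.map (θ t)) :
    P ≪ QQ P θ := by
  refine Measure.AbsolutelyContinuous.mk fun A hA h0 => ?_
  rw [QQ, Measure.map_apply hm hA, Measure.measure_prod_null (hm hA)] at h0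
  obtain ⟨t, ht⟩ := h0.exists
  have ht' : P (θ t ⁻¹' A) = 0 := ht
  apply hac t
  have hmt : Measurable (θ t) := hm.comp (measurable_prodMk_left (x := t))
  rw [Measure.map_apply hmt hA]
  exact ht'

theorem rep (P : Measure Ω) [IsProbabilityMeasure P] {θ : (Fin N → ℝ) → Ω → Ω}
    (hm : Measurable fun p : (Fin N → ℝ) × Ω => θ p.1 p.2) (hac : ∀ t, P ≪ P.map (θ t))
    (χ : Ω → ℝ) (hχ : Integrable χ P) : ∃ G : Ω → ℝ,
    Integrable (fun p : (Fin N → ℝ) × Ω => G (θ p.1 p.2)) ((lam N).prod P) ∧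
    ∀ (Z : Ω → ℝ) (K : ℝ), Measurable Z → (∀ o, |Z o| ≤ K) →
      Integrable (fun p : (Fin N → ℝ) × Ω => G (θ p.1 p.2) * Z (θ p.1 p.2)) ((lam N).prod P) ∧
      ∫ o, χ o * Z o ∂P = ∫ o, ∫ t, G (θ t o) * Z (θ t o) ∂(lam N) ∂P := by
  have : IsProbabilityMeasure (QQ P θ) := Measure.isProbabilityMeasure_map hm.aemeasurable
  have hac := P_ac P hm hac
  refine ⟨fun o => (P.rnDeriv (QQ P θ) o).toReal * χ o, ?_, ?_⟩
  · have h1 : Integrable (fun o => (P.rnDeriv (QQ P θ) o).toReal * χ o) (QQ P θ) :=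
      (integrable_toReal_rnDeriv_mul_iff hac).mpr hχ
    exact (integrable_map_measure h1.1 hm.aemeasurable).mp h1
  · intro Z K hZ hK
    have h0 : Integrable (fun o => χ o * Z o) P :=
      hχ.mul_bdd hZ.aestronglyMeasurable (Eventually.of_forall hK)
    have h1 : Integrable (fun o => (P.rnDeriv (QQ P θ) o).toReal * (χ o * Z o)) (QQ P θ) :=
      (integrable_toReal_rnDeriv_mul_iff hac).mpr h0
    have h1' : Integrable (fun o => (P.rnDeriv (QQ P θ) o).toReal * χ o * Z o) (QQ P θ) := by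
      simpa only [mul_assoc] using h1
    have h2 : Integrable (fun p : (Fin N → ℝ) × Ω => (P.rnDeriv (QQ P θ) (θ p.1 p.2)).toReal *
        χ (θ p.1 p.2) * Z (θ p.1 p.2)) ((lam N).prod P) :=
      (integrable_map_measure h1'.1 hm.aemeasurable).mp h1'
    refine ⟨h2, ?_⟩
    have h3 : ∫ o, χ o * Z o ∂P = ∫ o, (P.rnDeriv (QQ P θ) o).toReal * χ o * Z o ∂(QQ P θ) := by
      rw [← integral_toReal_rnDeriv_mul hac]
      simp only [mul_assoc]
    rw [h3]
    unfold QQ at h1' ⊢
    rw [integral_map hm.aemeasurable h1'.1]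
    exact integral_prod_symm _ h2

/-- weak convergence to zero along all orbits implies weak convergence to zero -/
theorem qw (P : Measure Ω) [IsProbabilityMeasure P] {θ : (Fin N → ℝ) → Ω → Ω}
    (hm : Measurable fun p : (Fin N → ℝ) × Ω => θ p.1 p.2) (hac : ∀ t, P ≪ P.map (θ t))
    (X : ℕ → Ω → ℝ) (K : ℝ) (hX : ∀ j, Measurable (X j)) (hXK : ∀ j o, |X j o| ≤ K)
    (hlim : ∀ o, ∀ χ : (Fin N → ℝ) → ℝ, Integrable χ volume →
      Tendsto (fun j => ∫ t, χ t * X j (θ t o)) atTop (𝓝 0))
    (χ : Ω → ℝ) (hχ : Integrable χ P) :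
    Tendsto (fun j => ∫ o, χ o * X j o ∂P) atTop (𝓝 0) := by
  obtain ⟨G, hG, hrep⟩ := rep P hm hac χ hχ
  have hl : ∀ j, ∫ o, χ o * X j o ∂P = ∫ o, ∫ t, G (θ t o) * X j (θ t o) ∂(lam N) ∂P := fun j =>
    (hrep (X j) K (hX j) (hXK j)).2
  simp_rw [hl]
  have hGn : Integrable (fun o => ∫ t, ‖G (θ t o)‖ ∂(lam N)) P := hG.norm.integral_prod_right
  have h00 : (0 : ℝ) = ∫ _o : Ω, (0 : ℝ) ∂P := by simp
  rw [h00]
  refine tendsto_integral_of_dominated_convergence (fun o => K * ∫ t, ‖G (θ t o)‖ ∂(lam N))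
    (fun j => ((hrep (X j) K (hX j) (hXK j)).1.integral_prod_right).1) (hGn.const_mul K) ?_ ?_
  · intro j
    filter_upwards [hG.prod_left_ae] with o ho
    calc ‖∫ t, G (θ t o) * X j (θ t o) ∂(lam N)‖ ≤ ∫ t, K * ‖G (θ t o)‖ ∂(lam N) := by
          apply norm_integral_le_of_norm_le (ho.norm.const_mul K)
          refine Eventually.of_forall fun t => ?_
          rw [norm_mul, mul_comm]
          exact mul_le_mul_of_nonneg_right (hXK j _) (norm_nonneg _)
      _ = K * ∫ t, ‖G (θ t o)‖ ∂(lam N) := integral_const_mul _ _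
  · filter_upwards [hG.prod_left_ae] with o ho
    have hI : MeasurableSet (Icc (0 : Fin N → ℝ) 1) := measurableSet_Icc
    have h1 : Integrable ((Icc (0 : Fin N → ℝ) 1).indicator fun t => G (θ t o)) volume :=
      (integrable_indicator_iff hI).mpr ho
    have h2 := hlim o _ h1
    refine h2.congr fun j => ?_
    have : (fun t => (Icc (0 : Fin N → ℝ) 1).indicator (fun t => G (θ t o)) t * X j (θ t o)) =
        (Icc (0 : Fin N → ℝ) 1).indicator fun t => G (θ t o) * X j (θ t o) := by
      funext t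
      by_cases ht : t ∈ Icc (0 : Fin N → ℝ) 1
      · rw [indicator_of_mem ht, indicator_of_mem ht]
      · rw [indicator_of_notMem ht, indicator_of_notMem ht, zero_mul]
    rw [this, integral_indicator hI]
    rfl

end quasi

end Pool.Agent.Helper34.QD
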